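import Mathlib

/-!
Stratified bundles (left modules over Grothendieck differential operators) on an affine scheme,
their pull-backs, and regular singularity along `X x {infinity}` in `X x P^1`.
-/

namespace HI

open Polynomial LaurentPolynomial

section Ops

variable (k : Type*) [CommRing k] (B : Type*) [CommRing B] [Algebra k B]

/-- `IsDiff k B n P`: the `k`-linear map `P` is a differential operator of order `< n`
(Grothendieck): `P = 0` for `n = 0`, and all commutators `[P, b]` have order `< n` for `n + 1`. -/
def IsDiff : ℕ → Module.End k B → Prop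
  | 0, P => P = 0
  | n + 1, P => ∀ b : B, IsDiff n (P * Algebra.lmul k B b - Algebra.lmul k B b * P)

variable {k B}

theorem isDiff_zero (n : ℕ) : IsDiff k B n 0 := by
  induction n with
  | zero => rfl
  | succ n ih => intro b; simpa using ih

theorem IsDiff.add {n : ℕ} : ∀ {P Q : Module.End k B}, IsDiff k B n P → IsDiff k B n Q →
    IsDiff k B n (P + Q) := by
  induction n with
  | zero => intro P Q hP hQ; simp only [IsDiff] at *; rw [hP, hQ, add_zero]
  | succ n ih =>
    intro P Q hP hQ b
    have := ih (hP b) (hQ b)
    convert this using 1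
    noncomm_ring

theorem IsDiff.smul {n : ℕ} : ∀ {P : Module.End k B} (c : k), IsDiff k B n P →
    IsDiff k B n (c • P) := by
  induction n with
  | zero => intro P c hP; simp only [IsDiff] at *; rw [hP, smul_zero]
  | succ n ih =>
    intro P c hP b
    have := ih c (hP b)
    convert this using 1
    rw [smul_sub, smul_mul_assoc, mul_smul_comm]

theorem IsDiff.succ {n : ℕ} : ∀ {P : Module.End k B}, IsDiff k B n P → IsDiff k B (n + 1) P := by
  induction n with
  | zero => intro P hP b; simp only [IsDiff] at *; rw [hP]; simp
  | succ n ih => intro P hP b; exact ih (hP b)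

theorem IsDiff.mono {n m : ℕ} (h : n ≤ m) {P : Module.End k B} (hP : IsDiff k B n P) :
    IsDiff k B m P := by
  induction m, h using Nat.le_induction with
  | base => exact hP
  | succ m _ ih => exact ih.succ

theorem IsDiff.mul : ∀ (s m n : ℕ), m + n = s → ∀ {P Q : Module.End k B}, IsDiff k B m P →
    IsDiff k B n Q → IsDiff k B s (P * Q) := by
  intro s
  induction s with
  | zero =>
    intro m n h P Q hP hQ
    obtain rfl : m = 0 := by omega
    simp only [IsDiff] at *
    rw [hP, zero_mul]
  | succ s ih =>
    intro m n h P Q hP hQ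
    rcases m with _ | m
    · simp only [IsDiff] at hP
      rw [hP, zero_mul]
      exact isDiff_zero _
    rcases n with _ | n
    · simp only [IsDiff] at hQ
      rw [hQ, mul_zero]
      exact isDiff_zero _
    intro b
    have h1 := ih (m + 1) n (by omega) hP (hQ b)
    have h2 := ih m (n + 1) (by omega) (hP b) hQ
    convert h1.add h2 using 1
    simp only [mul_sub, sub_mul, mul_assoc]
    abel

theorem isDiff_lmul (b : B) : IsDiff k B 1 (Algebra.lmul k B b) := by
  intro c
  show _ = _
  rw [← map_mul, ← map_mul, mul_comm, sub_self]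

variable (k B)

/-- The ring `D_{B/k}` of Grothendieck differential operators of `B` relative to `k`. -/
def D : Subalgebra k (Module.End k B) where
  carrier := {P | ∃ n, IsDiff k B n P}
  mul_mem' := by
    rintro P Q ⟨m, hP⟩ ⟨n, hQ⟩
    exact ⟨m + n, IsDiff.mul _ m n rfl hP hQ⟩
  add_mem' := by
    rintro P Q ⟨m, hP⟩ ⟨n, hQ⟩
    exact ⟨max m n, (hP.mono (le_max_left _ _)).add (hQ.mono (le_max_right _ _))⟩
  algebraMap_mem' := by
    intro r
    refine ⟨1, ?_⟩
    intro b
    show _ = _
    rw [← Algebra.commutes, sub_self]

variable {B}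

/-- Multiplication by `b`, a differential operator of order `0`. -/
def mulOp (b : B) : D k B := ⟨Algebra.lmul k B b, 1, isDiff_lmul b⟩

variable (B)

/-- A left `D_{B/k}`-module structure on a `B`-module `M` that extends the `B`-module structure
(a stratification of `M`). -/
structure Strat (M : Type*) [AddCommGroup M] [Module B M] where
  /-- the action of differential operators -/
  act : D k B →+* AddMonoid.End M
  /-- functions act by the given multiplication -/
  act_mul : ∀ (b : B) (m : M), act (mulOp k b) m = b • m

variable {k B}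

/-- `u : M → M'` is `D_{B/k}`-linear (a morphism of stratified modules). -/
def IsHor {M M' : Type*} [AddCommGroup M] [Module B M] [AddCommGroup M'] [Module B M']
    (S : Strat k B M) (S' : Strat k B M') (u : M →ₗ[B] M') : Prop :=
  ∀ (P : D k B) (m : M), u (S.act P m) = S'.act P (u m)

/-- For a morphism `f : Spec B → Spec A`: the stratified module `(M, T)` on `Spec B`, together with
`ι : E → M`, is the pull-back `f^* (E, S)`: as a `B`-module `M` is `B ⊗_A E`, and a differential
operator `Q` on `B` whose restriction to `A` is `a ↦ ∑ b_i P_i(a)` with `b_i ∈ B` and `P_i ∈ D_{A/k}`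
acts by `Q (ι e) = ∑ b_i ι (P_i e)`. -/
def IsPullback {A : Type*} [CommRing A] [Algebra k A] [Algebra A B]
    {E M : Type*} [AddCommGroup E] [Module A E] [AddCommGroup M] [Module B M] [Module A M]
    [IsScalarTower A B M] (S : Strat k A E) (T : Strat k B M) (ι : E →ₗ[A] M) : Prop :=
  IsBaseChange B ι ∧
    ∀ (Q : D k B) (n : ℕ) (b : Fin n → B) (P : Fin n → D k A),
      (∀ a : A, (Q : Module.End k B) (algebraMap A B a)
        = ∑ i, b i * algebraMap A B ((P i : Module.End k A) a)) →
      ∀ e : E, T.act Q (ι e) = ∑ i, b i • ι (S.act (P i) e)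

end Ops

section Infinity

universe u

variable (k : Type*) [CommRing k] (A : Type u) [CommRing A] [Algebra k A]

/-- The coordinate ring `A[x⁻¹]` of `X × (P^1 - 0)` inside `A[x, x⁻¹]`, `X = Spec A`
(`T n` stands for `x ^ n`). -/
noncomputable def chartInf : Subalgebra A A[T;T⁻¹] := Algebra.adjoin A {T (-1)}

/-- The ring of logarithmic differential operators on the chart `X × (P^1 - 0)` with respect to the
divisor `X × {∞} = {t = 0}`, `t = x⁻¹`: those differential operators on `A[x, x⁻¹]` that map every
ideal `t^i A[t]`, `i ≥ 0`, into itself. -/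
def IsLog (P : D k A[T;T⁻¹]) : Prop :=
  ∀ (i : ℕ) (f : A[T;T⁻¹]), f ∈ chartInf A →
    ∃ g ∈ chartInf A, (P : Module.End k A[T;T⁻¹]) (T (-(i : ℤ)) * f) = T (-(i : ℤ)) * g

variable {k A}

/-- The stratified module `(M, T)` on `X × A^1` is regular singular along `X × {∞}` in `X × P^1`:
its restriction `V` to `X × G_m` has a coherent submodule `N` over the chart `X × (P^1 - 0)` which
restricts to `V` and is stable under the logarithmic differential operators (so `M` and `N` glue to
a coherent torsion free module with logarithmic differential operators on `X × P^1`). -/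
def RegularAtInfinity {M : Type u} [AddCommGroup M] [Module A[X] M]
    (S : Strat k A[X] M) : Prop :=
  ∃ (V : Type u) (_ : AddCommGroup V) (_ : Module A[T;T⁻¹] V) (_ : Module A[X] V)
    (_ : IsScalarTower A[X] A[T;T⁻¹] V) (SV : Strat k A[T;T⁻¹] V) (j : M →ₗ[A[X]] V),
    IsPullback S SV j ∧
    ∃ N : Submodule (chartInf A) V, N.FG ∧ Submodule.span A[T;T⁻¹] (N : Set V) = ⊤ ∧
      ∀ P : D k A[T;T⁻¹], IsLog k A P → ∀ v ∈ N, SV.act P v ∈ N

end Infinity

end HI
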