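import Pool.Agent.Lib.HI.Taylor

namespace HI

open Polynomial Finset

section Descent

variable {k : Type*} [CommRing k] {A : Type*} [CommRing A] [Algebra k A]
  {M : Type*} [AddCommGroup M] [Module A[X] M] [Module A M] [IsScalarTower A A[X] M]

/-- the canonical map `A[x] ⊗ E → M` -/
noncomputable def bcMap {E : Type*} [AddCommGroup E] [Module A E] (ι : E →ₗ[A] M) :
    TensorProduct A A[X] E →ₗ[A] M :=
  TensorProduct.lift (((Algebra.linearMap A[X]
    (Module.End A[X] (E →ₗ[A] M))).flip ι).restrictScalars A)

theorem bcMap_tmul {E : Type*} [AddCommGroup E] [Module A E] (ι : E →ₗ[A] M) (c : A[X]) (e : E) :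
    bcMap ι (c ⊗ₜ e) = c • ι e := by
  simp [bcMap]

theorem bcMap_smul {E : Type*} [AddCommGroup E] [Module A E] (ι : E →ₗ[A] M) (c : A[X])
    (t : TensorProduct A A[X] E) : bcMap ι (c • t) = c • bcMap ι t := by
  induction t using TensorProduct.induction_on with
  | zero => simp
  | tmul d e => rw [TensorProduct.smul_tmul', bcMap_tmul, bcMap_tmul, smul_eq_mul, mul_smul]
  | add x y hx hy => rw [smul_add, map_add, map_add, smul_add, hx, hy]

theorem bcMap_sum {E : Type*} [AddCommGroup E] [Module A E] (ι : E →ₗ[A] M) (c : ℕ →₀ E) :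
    bcMap ι (c.sum fun i n => (Polynomial.basisMonomials A) i ⊗ₜ[A] n)
      = c.sum fun j e => (X : A[X]) ^ j • ι e := by
  rw [Finsupp.sum, map_sum, Finsupp.sum]
  refine Finset.sum_congr rfl fun i _ => ?_
  rw [bcMap_tmul, Polynomial.coe_basisMonomials]
  show (monomial i (1 : A)) • _ = _
  rw [monomial_one_right_eq_X_pow]

theorem isBaseChange_iff_bcMap {E : Type*} [AddCommGroup E] [Module A E] (ι : E →ₗ[A] M) :
    IsBaseChange A[X] ι ↔ Function.Bijective (bcMap ι) := Iff.rfl

theorem isBaseChange_of {E : Type*} [AddCommGroup E] [Module A E] (ι : E →ₗ[A] M)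
    (hspan : ∀ m : M, m ∈ Submodule.span A[X] (Set.range ι))
    (hinj : ∀ f : ℕ →₀ E, (f.sum fun j e => (X : A[X]) ^ j • ι e) = 0 → f = 0) :
    IsBaseChange A[X] ι := by
  rw [isBaseChange_iff_bcMap]
  constructor
  · rw [injective_iff_map_eq_zero]
    intro x hx
    obtain ⟨c, rfl⟩ := TensorProduct.eq_repr_basis_left (Polynomial.basisMonomials A) x
    rw [bcMap_sum] at hx
    rw [hinj c hx]
    simp
  · intro m
    have hm := hspan m
    induction hm using Submodule.span_induction with
    | mem x hx =>
      obtain ⟨e, rfl⟩ := hx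
      exact ⟨1 ⊗ₜ e, by rw [bcMap_tmul, one_smul]⟩
    | zero => exact ⟨0, map_zero _⟩
    | add x y _ _ hx hy =>
      obtain ⟨a, rfl⟩ := hx
      obtain ⟨b, rfl⟩ := hy
      exact ⟨a + b, map_add _ _ _⟩
    | smul c x _ hx =>
      obtain ⟨a, rfl⟩ := hx
      exact ⟨c • a, bcMap_smul _ _ _⟩

/-- conversely, expansions with respect to a base change to `A[x]` -/
theorem expansion {E : Type*} [AddCommGroup E] [Module A E] {ι : E →ₗ[A] M}
    (h : IsBaseChange A[X] ι) (m : M) :
    ∃ f : ℕ →₀ E, (f.sum fun j e => (X : A[X]) ^ j • ι e) = m := by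
  rw [isBaseChange_iff_bcMap] at h
  obtain ⟨x, rfl⟩ := h.2 m
  obtain ⟨c, rfl⟩ := TensorProduct.eq_repr_basis_left (Polynomial.basisMonomials A) x
  exact ⟨c, (bcMap_sum _ _).symm⟩

theorem expansion_unique {E : Type*} [AddCommGroup E] [Module A E]
    {ι : E →ₗ[A] M} (h : IsBaseChange A[X] ι) (f : ℕ →₀ E)
    (hf : (f.sum fun j e => (X : A[X]) ^ j • ι e) = 0) : f = 0 := by
  rw [isBaseChange_iff_bcMap] at h
  have h1 : (f.sum fun i n => (Polynomial.basisMonomials A) i ⊗ₜ[A] n) = 0 := by
    apply h.1
    rw [map_zero, bcMap_sum, hf]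
  classical
  apply (TensorProduct.equivFinsuppOfBasisLeft (N := E)
    (Polynomial.basisMonomials A)).symm.injective
  rw [TensorProduct.equivFinsuppOfBasisLeft_symm_apply, h1, map_zero]

variable (S : Strat k A[X] M)

theorem isBaseChange_hor (hnil : ∀ m : M, ∃ N, ∀ j, N ≤ j → S.act (dp k j) m = 0) :
    IsBaseChange A[X] (hor S).subtype := by
  apply isBaseChange_of
  · intro m
    obtain ⟨N, hN⟩ := hnil m
    have hm := mem_span_hor S N m hN
    have : Set.range (hor S).subtype = ((hor S : Submodule A M) : Set M) := by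
      ext x; simp
    rw [this]
    exact hm
  · intro f hf
    exact hor_independent S f hf

theorem extD_act_mem (P : D k A) {e : M} (he : e ∈ hor S) : S.act (extD k P) e ∈ hor S := by
  intro j hj
  rw [← S.act_mul_apply, dp_mul_extD, S.act_mul_apply, he j hj, map_zero]

/-- The `D_{A/k}`-module structure on the horizontal sections. -/
noncomputable def horStrat : Strat k A (hor S) where
  act :=
    { toFun := fun P =>
        { toFun := fun e => ⟨S.act (extD k P) e, extD_act_mem S P e.2⟩
          map_zero' := by simp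
          map_add' := fun a b => by ext; simp }
      map_one' := by
        apply AddMonoidHom.ext
        intro e
        apply Subtype.ext
        show S.act (extD k 1) (e : M) = e
        rw [map_one, S.act_one]
      map_mul' := fun P Q => by
        apply AddMonoidHom.ext
        intro e
        apply Subtype.ext
        show S.act (extD k (P * Q)) (e : M) = S.act (extD k P) (S.act (extD k Q) e)
        rw [map_mul, S.act_mul_apply]
      map_zero' := by
        apply AddMonoidHom.ext
        intro e
        apply Subtype.ext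
        show S.act (extD k 0) (e : M) = 0
        rw [map_zero, map_zero]
        rfl
      map_add' := fun P Q => by
        apply AddMonoidHom.ext
        intro e
        apply Subtype.ext
        show S.act (extD k (P + Q)) (e : M) = S.act (extD k P) e + S.act (extD k Q) e
        rw [map_add, map_add]
        rfl }
  act_mul := by
    intro a e
    ext
    show S.act (extD k (mulOp k a)) e = _
    rw [extD_mulOp, S.act_mul, ← Polynomial.algebraMap_eq, algebraMap_smul]
    rfl

/-- iterated commutator with `x` -/
noncomputable def adX (R : D k A[X]) : ℕ → D k A[X]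
  | 0 => R
  | n + 1 => adX R n * mulOp k X - mulOp k X * adX R n

theorem adX_succ_coe (R : D k A[X]) (n : ℕ) : (adX R (n + 1) : Module.End k A[X])
    = (adX R n : Module.End k A[X]) * Algebra.lmul k A[X] X
      - Algebra.lmul k A[X] X * (adX R n : Module.End k A[X]) := rfl

theorem isDiff_adX (R : D k A[X]) : ∀ (j n : ℕ), IsDiff k A[X] (n + j) (R : Module.End k A[X]) →
    IsDiff k A[X] n (adX R j : Module.End k A[X]) := by
  intro j
  induction j with
  | zero => intro n h; exact h
  | succ j ih =>
    intro n h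
    exact ih (n + 1) (by rw [add_assoc, add_comm 1 j]; exact h) X

/-- `∑_{j<n} (-1)^j ad_x^j(R) ∂^{(j)}` -/
noncomputable def sX (R : D k A[X]) (n : ℕ) : D k A[X] :=
  ∑ j ∈ range n, ((-1 : k) ^ j) • (adX R j * dp k j)

theorem dp_mul_X (j : ℕ) : (dp k (j + 1) * mulOp k X : D k A[X])
    = mulOp k X * dp k (j + 1) + dp k j := by
  have h := dp_mul_X_pow k (A := A) (j + 1) 1
  rw [Finset.Nat.sum_antidiagonal_succ, Finset.sum_eq_single (0, j)] at h
  · simpa [mulOp_one] using h
  · rintro ⟨a, b⟩ hab hne
    have ha : a ≠ 0 := by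
      rintro rfl
      apply hne
      simpa using hab
    have : Nat.choose 1 (a + 1) = 0 := Nat.choose_eq_zero_of_lt (by omega)
    simp [this]
  · intro h'
    exact absurd (by simp) h'

theorem telescope {R : Type*} [Ring R] [Algebra k R] (x : R) (c d : ℕ → R)
    (hc : ∀ n, c (n + 1) = c n * x - x * c n) (h0 : d 0 * x = x * d 0)
    (hd : ∀ n, d (n + 1) * x = x * d (n + 1) + d n) (n : ℕ) :
    (∑ j ∈ range (n + 1), ((-1 : k) ^ j) • (c j * d j)) * x
      - x * (∑ j ∈ range (n + 1), ((-1 : k) ^ j) • (c j * d j))
    = ((-1 : k) ^ n) • (c (n + 1) * d n) := by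
  induction n with
  | zero =>
    simp only [zero_add, sum_range_one, pow_zero, one_smul]
    rw [hc 0, mul_assoc, h0, sub_mul, mul_assoc, mul_assoc]
  | succ n ih =>
    rw [sum_range_succ, add_mul, mul_add, smul_mul_assoc, mul_smul_comm]
    have h4 : c (n + 1) * d (n + 1) * x - x * (c (n + 1) * d (n + 1))
        = c (n + 2) * d (n + 1) + c (n + 1) * d n := by
      rw [hc (n + 1), mul_assoc (c (n + 1)), hd, sub_mul, mul_add, mul_assoc, mul_assoc]
      abel
    rw [add_sub_add_comm, ih, ← smul_sub, h4, smul_add, pow_succ]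
    simp

theorem sX_coe (R : D k A[X]) (n : ℕ) : (sX R n : Module.End k A[X])
    = ∑ j ∈ range n, ((-1 : k) ^ j) • ((adX R j : Module.End k A[X]) *
        ((dp k j : D k A[X]) : Module.End k A[X])) := by
  rw [sX]
  have h := map_sum (D k A[X]).val (fun j => ((-1 : k) ^ j) • (adX R j * dp k j)) (range n)
  exact h.trans (Finset.sum_congr rfl fun j _ => rfl)

/-- an operator which kills `A` kills the horizontal sections -/
theorem act_eq_zero_of_kills (R : D k A[X])
    (hR : ∀ a : A, (R : Module.End k A[X]) (C a) = 0) {e : M} (he : e ∈ hor S) :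
    S.act R e = 0 := by
  obtain ⟨n, hn⟩ := R.2
  have hn1 : IsDiff k A[X] (0 + (n + 1)) (R : Module.End k A[X]) := by
    rw [zero_add]; exact hn.succ
  have hC : adX R (n + 1) = 0 := by
    apply Subtype.ext
    exact isDiff_adX R (n + 1) 0 hn1
  set σ : Module.End k A[X] := (sX R (n + 1) : Module.End k A[X]) with hσ
  have hcomm : σ * Algebra.lmul k A[X] X = Algebra.lmul k A[X] X * σ := by
    have h := telescope (k := k) (Algebra.lmul k A[X] X) (fun j => (adX R j : Module.End k A[X]))
      (fun j => ((dp k j : D k A[X]) : Module.End k A[X])) (fun j => rfl)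
      (by simp [dp_zero])
      (fun j => congrArg Subtype.val (dp_mul_X (k := k) (A := A) j)) n
    rw [← sX_coe] at h
    simp only [hC] at h
    rw [ZeroMemClass.coe_zero, zero_mul, smul_zero, sub_eq_zero] at h
    exact h
  have hpow : ∀ i : ℕ, σ * Algebra.lmul k A[X] (X ^ i) = Algebra.lmul k A[X] (X ^ i) * σ := by
    intro i
    induction i with
    | zero => rw [pow_zero, map_one, mul_one, one_mul]
    | succ i ih => rw [pow_succ, map_mul, ← mul_assoc, ih, mul_assoc, hcomm, mul_assoc]
  have hA : ∀ a : A, σ (C a) = 0 := by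
    intro a
    rw [hσ, sX_coe, LinearMap.sum_apply]
    apply Finset.sum_eq_zero
    intro j _
    rcases Nat.eq_zero_or_pos j with rfl | hj
    · simp [dp_zero, adX, hR]
    · rw [LinearMap.smul_apply, Module.End.mul_apply, dp_apply, hasseDeriv_C _ _ hj, map_zero,
        smul_zero]
  have hz : sX R (n + 1) = 0 := by
    apply Subtype.ext
    ext1 f
    induction f using Polynomial.induction_on' with
    | add p q hp hq => rw [map_add, hp, hq]; simp
    | monomial i a =>
      rw [← C_mul_X_pow_eq_monomial, mul_comm]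
      have h := congrArg (fun P : Module.End k A[X] => P (C a)) (hpow i)
      simp only [Module.End.mul_apply, Algebra.coe_lmul_eq_mul,
        LinearMap.mul_apply', hA, mul_zero] at h
      rw [← hσ, h]
      simp
  have h1 : S.act (sX R (n + 1)) e = S.act R e := by
    rw [sX, S.act_sum, Finset.sum_eq_single 0]
    · simp [dp_zero, adX]
    · intro j _ hj
      rw [← smul_mul_assoc, S.act_mul_apply, he j (Nat.one_le_iff_ne_zero.mpr hj), map_zero]
    · intro h
      exact absurd (by simp) h
  rw [← h1, hz, map_zero]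
  rfl

theorem horStrat_act (P : D k A) (e : hor S) :
    (((horStrat S).act P e : hor S) : M) = S.act (extD k P) e := rfl

/-- The module `M` is the pull-back of its module of horizontal sections. -/
theorem isPullback_hor (hnil : ∀ m : M, ∃ N, ∀ j, N ≤ j → S.act (dp k j) m = 0) :
    IsPullback (horStrat S) S (hor S).subtype := by
  refine ⟨isBaseChange_hor S hnil, ?_⟩
  intro Q n b P hQ e
  set R : D k A[X] := Q + (∑ i, mulOp k (-(b i)) * extD k (P i)) with hRdef
  have hkill : ∀ a : A, (R : Module.End k A[X]) (C a) = 0 := by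
    intro a
    have h1 : (R : Module.End k A[X]) = (Q : Module.End k A[X])
        + ∑ i, Algebra.lmul k A[X] (-(b i)) * ext0 k (P i : Module.End k A) := by
      rw [hRdef]
      have h := map_sum (D k A[X]).val (fun i => mulOp k (-(b i)) * extD k (P i)) Finset.univ
      exact congrArg (fun z => (Q : Module.End k A[X]) + z) h
    rw [h1, LinearMap.add_apply, LinearMap.sum_apply]
    have h2 := hQ a
    rw [Polynomial.algebraMap_eq] at h2
    rw [h2, ← Finset.sum_add_distrib]
    apply Finset.sum_eq_zero
    intro i _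
    simp [ext0_C]
  have h3 := act_eq_zero_of_kills S R hkill e.2
  have h4 : S.act R e = S.act Q e + ∑ i, (-(b i)) • S.act (extD k (P i)) e := by
    rw [hRdef, map_add]
    show S.act Q e + S.act (∑ i, mulOp k (-(b i)) * extD k (P i)) e = _
    rw [S.act_sum]
    congr 1
    refine Finset.sum_congr rfl fun i _ => ?_
    rw [S.act_mul_apply, S.act_mul]
  rw [h4] at h3
  simp only [neg_smul, Finset.sum_neg_distrib] at h3
  exact add_neg_eq_zero.mp h3

end Descent

end HI
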