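import Pool.Agent.Lib.HI.Full

namespace HI

open Polynomial Finset

section FF

variable {k : Type*} [CommRing k] {A : Type*} [CommRing A] [Algebra k A]
  {M : Type*} [AddCommGroup M] [Module A[X] M] [Module A M] [IsScalarTower A A[X] M]
  {E : Type*} [AddCommGroup E] [Module A E]
  {S : Strat k A E} {T : Strat k A[X] M} {ι : E →ₗ[A] M}

theorem IsPullback.mem_hor (h : IsPullback S T ι) (e : E) : ι e ∈ hor T := by
  intro j hj
  have h1 := h.2 (dp k j) 0 Fin.elim0 Fin.elim0 (by
    intro a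
    rw [dp_apply, Polynomial.algebraMap_eq, hasseDeriv_C _ _ hj]
    simp) e
  rw [h1]
  simp

theorem IsPullback.act_extD (h : IsPullback S T ι) (P : D k A) (e : E) :
    T.act (extD k P) (ι e) = ι (S.act P e) := by
  have h1 := h.2 (extD k P) 1 (fun _ => 1) (fun _ => P) (by
    intro a
    rw [extD_coe, Polynomial.algebraMap_eq, ext0_C]
    simp) e
  rw [h1]
  simp

theorem IsPullback.injective (h : IsPullback S T ι) : Function.Injective ι := by
  obtain ⟨π, hπ, _⟩ := exists_const h.1
  intro a b hab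
  rw [← hπ a, ← hπ b, hab]

theorem IsPullback.exists_of_mem_hor (h : IsPullback S T ι) {m : M} (hm : m ∈ hor T) :
    ∃ e, ι e = m := by
  obtain ⟨f, hf⟩ := expansion h.1 m
  let F : ℕ →₀ hor T := f.mapRange (fun e => ⟨ι e, h.mem_hor e⟩) (by simp)
  have hF : (F.sum fun j e => (X : A[X]) ^ j • (e : M)) = m := by
    rw [← hf, Finsupp.sum_mapRange_index (by simp)]
  have h0 : F - Finsupp.single 0 ⟨m, hm⟩ = 0 := by
    apply hor_independent T
    rw [Finsupp.sum_sub_index (by intro a b c; simp [smul_sub]), hF,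
      Finsupp.sum_single_index (by simp)]
    simp
  have h1 : F 0 = ⟨m, hm⟩ := by
    have := DFunLike.congr_fun h0 0
    simpa [sub_eq_zero] using this
  refine ⟨f 0, ?_⟩
  have h2 := congrArg Subtype.val h1
  simpa [F] using h2

variable {M' : Type*} [AddCommGroup M'] [Module A[X] M'] [Module A M'] [IsScalarTower A A[X] M']
  {E' : Type*} [AddCommGroup E'] [Module A E']
  {S' : Strat k A E'} {T' : Strat k A[X] M'} {ι' : E' →ₗ[A] M'}

/-- The pull-back of a morphism exists and is unique. -/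
theorem exists_extension [Algebra.FiniteType k A] (h : IsPullback S T ι)
    (h' : IsPullback S' T' ι') (u : E →ₗ[A] E') (hu : IsHor S S' u) :
    ∃! v : M →ₗ[A[X]] M', IsHor T T' v ∧ ∀ e, v (ι e) = ι' (u e) := by
  refine ⟨h.1.lift (ι' ∘ₗ u), ⟨?_, fun e => h.1.lift_eq _ e⟩, ?_⟩
  · intro Q m
    induction m using h.1.inductionOn generalizing Q with
    | zero => simp
    | tmul e =>
      obtain ⟨n, b, P, hP⟩ := exists_rep Q
      rw [h.2 Q n b P hP e, h.1.lift_eq, map_sum]
      show _ = T'.act Q (ι' (u e))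
      rw [h'.2 Q n b P hP (u e)]
      refine Finset.sum_congr rfl fun i _ => ?_
      rw [map_smul, h.1.lift_eq]
      show b i • ι' (u (S.act (P i) e)) = _
      rw [hu]
    | smul c m ih => rw [T.act_smul, ih, map_smul, T'.act_smul]
    | add x y hx hy => rw [map_add, map_add, map_add, map_add, hx, hy]
  · rintro w ⟨_, hw⟩
    apply h.1.algHom_ext
    intro e
    rw [hw, h.1.lift_eq]
    rfl

/-- Every morphism of pull-backs descends. -/
theorem exists_descent (h : IsPullback S T ι)
    (h' : IsPullback S' T' ι') (v : M →ₗ[A[X]] M') (hv : IsHor T T' v) :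
    ∃! u : E →ₗ[A] E', IsHor S S' u ∧ ∀ e, v (ι e) = ι' (u e) := by
  obtain ⟨π, hπ, _⟩ := exists_const h'.1
  have hmem : ∀ e, v (ι e) ∈ hor T' := by
    intro e j hj
    rw [← hv, h.mem_hor e j hj, map_zero]
  let u : E →ₗ[A] E' := π ∘ₗ v.restrictScalars A ∘ₗ ι
  have hu : ∀ e, v (ι e) = ι' (u e) := by
    intro e
    obtain ⟨e', he'⟩ := h'.exists_of_mem_hor (hmem e)
    show v (ι e) = ι' (π (v (ι e)))
    rw [← he', hπ]
  refine ⟨u, ⟨?_, hu⟩, ?_⟩
  · intro P e
    apply h'.injective
    rw [← hu, ← h.act_extD, hv, hu, h'.act_extD]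
  · rintro w ⟨_, hw⟩
    ext e
    apply h'.injective
    rw [← hw, ← hu]

end FF

end HI
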