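import Pool.Agent.Lib.HI.Equiv

/-!
Existence of the pull-back along `A → B` when `B` is free over `A` and `A` is of finite type.
-/

namespace HI

open Finset

section General

variable {k : Type*} [CommRing k] {A : Type*} [CommRing A] [Algebra k A]
  {B : Type*} [CommRing B] [Algebra k B] [Algebra A B] [IsScalarTower k A B]

/-- differential operators `A → B` of order `< n` -/
def IsDB : ℕ → (A →ₗ[k] B) → Prop
  | 0, Q => Q = 0
  | n + 1, Q => ∀ a : A, IsDB n (Q ∘ₗ Algebra.lmul k A a - Algebra.lmul k B (algebraMap A B a) ∘ₗ Q)

/-- the map `a ↦ b a`, `A → B` -/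
noncomputable def incB (k : Type*) [CommRing k] {A : Type*} [CommRing A] [Algebra k A]
    {B : Type*} [CommRing B] [Algebra k B] [Algebra A B] [IsScalarTower k A B] (b : B) :
    A →ₗ[k] B :=
  (Algebra.lmul k B b) ∘ₗ ((Algebra.linearMap A B).restrictScalars k)

theorem incB_apply (b : B) (a : A) : incB k b a = b * algebraMap A B a := rfl

theorem isDB_of_isDiff {n : ℕ} (b : B) : ∀ {Q : Module.End k B}, IsDiff k B n Q →
    IsDB n (Q ∘ₗ (incB k b : A →ₗ[k] B)) := by
  induction n with
  | zero => intro Q hQ; simp only [IsDiff, IsDB] at *; rw [hQ]; rfl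
  | succ n ih =>
    intro Q hQ a
    have h := ih (hQ (algebraMap A B a))
    convert h using 1
    ext c
    simp only [LinearMap.sub_apply, LinearMap.comp_apply, incB_apply, Algebra.coe_lmul_eq_mul,
      LinearMap.mul_apply', map_mul, Module.End.mul_apply]
    rw [mul_left_comm]

variable {I : Type*} (β : Module.Basis I A B)

/-- the `l`-th coordinate of an operator `A → B` -/
noncomputable def cB (Q : A →ₗ[k] B) (l : I) : Module.End k A :=
  ((β.coord l).restrictScalars k) ∘ₗ Q

theorem cB_apply (Q : A →ₗ[k] B) (l : I) (a : A) : cB β Q l a = β.repr (Q a) l := rfl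

theorem isDiff_cB {n : ℕ} (l : I) : ∀ {Q : A →ₗ[k] B}, IsDB n Q → IsDiff k A n (cB β Q l) := by
  induction n with
  | zero =>
    intro Q hQ
    simp only [IsDiff, IsDB] at *
    rw [hQ]
    ext a
    simp [cB_apply]
  | succ n ih =>
    intro Q hQ a
    have h := ih (hQ a)
    convert h using 1
    ext b
    simp only [LinearMap.sub_apply, LinearMap.comp_apply, Algebra.coe_lmul_eq_mul,
      LinearMap.mul_apply', Module.End.mul_apply, cB_apply, map_sub, Finsupp.sub_apply]
    rw [← Algebra.smul_def, map_smul, Finsupp.smul_apply, smul_eq_mul]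

theorem bounded_support [Algebra.FiniteType k A] {n : ℕ} : ∀ {Q : A →ₗ[k] B}, IsDB n Q →
    ∃ s : Finset I, ∀ (a : A) (l : I), l ∉ s → β.repr (Q a) l = 0 := by
  classical
  induction n with
  | zero =>
    intro Q hQ
    simp only [IsDB] at hQ
    exact ⟨∅, fun a l _ => by rw [hQ]; simp⟩
  | succ n ih =>
    intro Q hQ
    obtain ⟨s, hs⟩ := (inferInstance : Algebra.FiniteType k A).1
    choose N hN using fun a => ih (hQ a)
    refine ⟨s.biUnion N ∪ (β.repr (Q 1)).support, ?_⟩
    have hclos : ∀ x ∈ Submonoid.closure (s : Set A), ∀ l : I,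
        l ∉ s.biUnion N ∪ (β.repr (Q 1)).support → β.repr (Q x) l = 0 := by
      intro x hx
      induction hx using Submonoid.closure_induction_left with
      | one =>
        intro l hl
        rw [Finset.mem_union, not_or] at hl
        exact Finsupp.notMem_support_iff.mp hl.2
      | mul_left a ha y _ ih' =>
        intro l hl
        have hl1 : l ∉ N a := by
          intro h
          exact hl (Finset.mem_union_left _ (Finset.mem_biUnion.mpr ⟨a, Finset.mem_coe.mp ha, h⟩))
        have h1 := hN a y l hl1
        have h2 := ih' l hl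
        simp only [LinearMap.sub_apply, LinearMap.comp_apply, Algebra.coe_lmul_eq_mul,
          LinearMap.mul_apply', map_sub, Finsupp.sub_apply] at h1
        rw [← Algebra.smul_def, map_smul, Finsupp.smul_apply, h2, smul_zero, sub_zero] at h1
        exact h1
    intro a l hl
    have ha : a ∈ Submodule.span k (Submonoid.closure (s : Set A) : Set A) := by
      rw [← Algebra.adjoin_eq_span, hs]
      trivial
    induction ha using Submodule.span_induction with
    | mem x hx => exact hclos x hx l hl
    | zero => simp
    | add x y _ _ hx hy => rw [map_add, map_add, Finsupp.add_apply, hx, hy, add_zero]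
    | smul c x _ hx =>
      rw [map_smul, ← algebraMap_smul A c (Q x), map_smul, Finsupp.smul_apply, hx, smul_zero]

/-- the matrix entry `Q_{l i}` of a differential operator on `B` -/
noncomputable def ent (Q : D k B) (l i : I) : D k A :=
  ⟨cB β ((Q : Module.End k B) ∘ₗ incB k (β i)) l, Q.2.imp fun _ h =>
    isDiff_cB β l (isDB_of_isDiff (β i) h)⟩

theorem ent_apply (Q : D k B) (l i : I) (a : A) : (ent β Q l i : Module.End k A) a
    = β.repr ((Q : Module.End k B) (β i * algebraMap A B a)) l := rfl

theorem ent_finite [Algebra.FiniteType k A] (Q : D k B) (i : I) :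
    ∃ s : Finset I, ∀ l, l ∉ s → ent β Q l i = 0 := by
  obtain ⟨n, hn⟩ := Q.2
  obtain ⟨s, hs⟩ := bounded_support β (isDB_of_isDiff (A := A) (β i) hn)
  refine ⟨s, fun l hl => ?_⟩
  apply Subtype.ext
  ext a
  exact hs a l hl

theorem sum_ent (Q : D k B) (i : I) (F : Finset I) (hF : ∀ l, l ∉ F → ent β Q l i = 0) (a : A) :
    ∑ l ∈ F, β l * algebraMap A B ((ent β Q l i : Module.End k A) a)
      = (Q : Module.End k B) (β i * algebraMap A B a) := by
  have h1 : ∀ l, l ∉ F → β.repr ((Q : Module.End k B) (β i * algebraMap A B a)) l = 0 := by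
    intro l hl
    have h := congrArg (fun P : D k A => (P : Module.End k A) a) (hF l hl)
    simpa [ent_apply] using h
  conv_rhs => rw [← β.linearCombination_repr ((Q : Module.End k B) (β i * algebraMap A B a))]
  rw [Finsupp.linearCombination_apply, Finsupp.sum_of_support_subset _ (s := F)]
  · refine Finset.sum_congr rfl fun l _ => ?_
    rw [Algebra.smul_def, mul_comm, ent_apply]
  · intro l hl
    by_contra hcon
    exact (Finsupp.mem_support_iff.mp hl) (h1 l hcon)
  · simp

theorem ent_mul (P Q : D k B) (l i : I) (F : Finset I) (hF : ∀ l, l ∉ F → ent β Q l i = 0) :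
    ent β (P * Q) l i = ∑ s ∈ F, ent β P l s * ent β Q s i := by
  apply Subtype.ext
  ext a
  have h1 : ((∑ s ∈ F, ent β P l s * ent β Q s i : D k A) : Module.End k A) a
      = ∑ s ∈ F, (ent β P l s : Module.End k A) ((ent β Q s i : Module.End k A) a) := by
    have h := map_sum (D k A).val (fun s => ent β P l s * ent β Q s i) F
    have h' := congrArg (fun f : Module.End k A => f a) h
    refine h'.trans ?_
    rw [LinearMap.sum_apply]
    rfl
  rw [h1]
  simp only [ent_apply β P]
  rw [← Finsupp.finsetSum_apply, ← map_sum, ← map_sum, sum_ent β Q i F hF a]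
  rfl

variable {E : Type*} [AddCommGroup E] [Module A E] (S : Strat k A E)

theorem ent_act_finite [Algebra.FiniteType k A] (Q : D k B) (i : I) (e : E) :
    (Function.support fun l => S.act (ent β Q l i) e).Finite := by
  obtain ⟨F, hF⟩ := ent_finite β Q i
  refine F.finite_toSet.subset ?_
  intro l hl
  by_contra hcon
  apply hl
  show S.act (ent β Q l i) e = 0
  rw [hF l hcon, map_zero]
  rfl

/-- the action of `Q` on `⊕ β_i E` -/
noncomputable def actF [Algebra.FiniteType k A] (Q : D k B) : (I →₀ E) →+ (I →₀ E) :=
  Finsupp.liftAddHom fun i =>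
    { toFun := fun e => Finsupp.ofSupportFinite (fun l => S.act (ent β Q l i) e)
        (ent_act_finite β S Q i e)
      map_zero' := by
        ext l
        simp [Finsupp.ofSupportFinite_coe]
      map_add' := by
        intro x y
        ext l
        simp [Finsupp.ofSupportFinite_coe] }

theorem actF_single [Algebra.FiniteType k A] (Q : D k B) (i : I) (e : E) (l : I) :
    actF β S Q (Finsupp.single i e) l = S.act (ent β Q l i) e := by
  rw [actF, Finsupp.liftAddHom_apply_single]
  rfl

theorem actF_single' [Algebra.FiniteType k A] (Q : D k B) (i : I) (e : E) (F : Finset I)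
    (hF : ∀ l, l ∉ F → ent β Q l i = 0) :
    actF β S Q (Finsupp.single i e) = ∑ s ∈ F, Finsupp.single s (S.act (ent β Q s i) e) := by
  classical
  ext l
  rw [actF_single, Finsupp.finsetSum_apply]
  simp only [Finsupp.single_apply, Finset.sum_ite_eq']
  split_ifs with h
  · rfl
  · rw [hF l h, map_zero]
    rfl

theorem actF_mul [Algebra.FiniteType k A] (P Q : D k B) :
    actF β S (P * Q) = (actF β S P).comp (actF β S Q) := by
  ext i e l
  obtain ⟨F, hF⟩ := ent_finite β Q i
  show actF β S (P * Q) (Finsupp.single i e) l
    = actF β S P (actF β S Q (Finsupp.single i e)) l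
  rw [actF_single, ent_mul β P Q l i F hF, S.act_sum, actF_single' β S Q i e F hF, map_sum,
    Finsupp.finsetSum_apply]
  refine Finset.sum_congr rfl fun s _ => ?_
  rw [actF_single, S.act_mul_apply]

theorem actF_add [Algebra.FiniteType k A] (P Q : D k B) :
    actF β S (P + Q) = actF β S P + actF β S Q := by
  ext i e l
  show actF β S (P + Q) (Finsupp.single i e) l
    = actF β S P (Finsupp.single i e) l + actF β S Q (Finsupp.single i e) l
  rw [actF_single, actF_single, actF_single]
  have : ent β (P + Q) l i = ent β P l i + ent β Q l i := by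
    apply Subtype.ext
    ext a
    show β.repr _ l = β.repr _ l + β.repr _ l
    rw [← Finsupp.add_apply, ← map_add]
    rfl
  rw [this, map_add]
  rfl

theorem actF_zero [Algebra.FiniteType k A] : actF β S (0 : D k B) = 0 := by
  have h := actF_add β S (0 : D k B) 0
  rw [add_zero] at h
  simpa using h

theorem actF_mulOp [Algebra.FiniteType k A] (b : B) (i : I) (e : E) (l : I) :
    actF β S (mulOp k b) (Finsupp.single i e) l = β.repr (b * β i) l • e := by
  rw [actF_single, ← S.act_mul]
  congr 2
  apply Subtype.ext
  ext a
  rw [ent_apply]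
  simp only [mulOp_coe, Algebra.coe_lmul_eq_mul, LinearMap.mul_apply']
  rw [← mul_assoc, mul_comm, ← Algebra.smul_def, map_smul, Finsupp.smul_apply, smul_eq_mul,
    mul_comm]

open scoped Classical in
/-- the action of `Q` on `B ⊗ E` -/
noncomputable def actM [Algebra.FiniteType k A] (Q : D k B) :
    TensorProduct A B E →+ TensorProduct A B E :=
  ((TensorProduct.equivFinsuppOfBasisLeft (N := E) β).symm :
          (I →₀ E) →+ TensorProduct A B E).comp ((actF β S Q).comp
          ((TensorProduct.equivFinsuppOfBasisLeft (N := E) β) : TensorProduct A B E →+ (I →₀ E)))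

open scoped Classical in
theorem actM_apply [Algebra.FiniteType k A] (Q : D k B) (x : TensorProduct A B E) :
    actM β S Q x = (TensorProduct.equivFinsuppOfBasisLeft (N := E) β).symm
      (actF β S Q (TensorProduct.equivFinsuppOfBasisLeft (N := E) β x)) := rfl

theorem actM_mul [Algebra.FiniteType k A] (P Q : D k B) :
    actM β S (P * Q) = (actM β S P).comp (actM β S Q) := by
  apply AddMonoidHom.ext
  intro x
  rw [AddMonoidHom.comp_apply, actM_apply, actM_apply, actM_apply, actF_mul,
    LinearEquiv.apply_symm_apply]
  rfl

theorem actM_add [Algebra.FiniteType k A] (P Q : D k B) :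
    actM β S (P + Q) = actM β S P + actM β S Q := by
  apply AddMonoidHom.ext
  intro x
  rw [AddMonoidHom.add_apply, actM_apply, actM_apply, actM_apply, actF_add,
    AddMonoidHom.add_apply, map_add]

theorem actM_zero [Algebra.FiniteType k A] : actM β S (0 : D k B) = 0 := by
  apply AddMonoidHom.ext
  intro x
  rw [actM_apply, actF_zero, AddMonoidHom.zero_apply, map_zero, AddMonoidHom.zero_apply]

theorem actM_mulOp [Algebra.FiniteType k A] (b : B) (x : TensorProduct A B E) :
    actM β S (mulOp k b) x = b • x := by
  classical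
  rw [actM_apply, LinearEquiv.symm_apply_eq]
  obtain ⟨f, rfl⟩ := (TensorProduct.equivFinsuppOfBasisLeft (N := E) β).symm.surjective x
  rw [LinearEquiv.apply_symm_apply]
  induction f using Finsupp.induction_linear with
  | zero => simp
  | add f g hf hg => rw [map_add, map_add, smul_add, map_add, hf, hg]
  | single i e =>
    ext l
    rw [actF_mulOp, TensorProduct.equivFinsuppOfBasisLeft_symm_apply,
      Finsupp.sum_single_index (by simp), TensorProduct.smul_tmul',
      TensorProduct.equivFinsuppOfBasisLeft_apply_tmul_apply, smul_eq_mul]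

theorem actM_one [Algebra.FiniteType k A] : actM β S (1 : D k B) = AddMonoidHom.id _ := by
  apply AddMonoidHom.ext
  intro x
  rw [← mulOp_one, actM_mulOp, one_smul]
  rfl

/-- The pull-back of a stratified module to `B ⊗ E`. -/
noncomputable def pbStrat [Algebra.FiniteType k A] : Strat k B (TensorProduct A B E) where
  act :=
    { toFun := fun Q => actM β S Q
      map_one' := actM_one β S
      map_mul' := fun P Q => actM_mul β S P Q
      map_zero' := actM_zero β S
      map_add' := fun P Q => actM_add β S P Q }
  act_mul := fun b x => actM_mulOp β S b x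

open scoped Classical in
theorem pbStrat_act [Algebra.FiniteType k A] (Q : D k B) (x : TensorProduct A B E) :
    TensorProduct.equivFinsuppOfBasisLeft (N := E) β ((pbStrat β S).act Q x)
      = actF β S Q (TensorProduct.equivFinsuppOfBasisLeft (N := E) β x) := by
  have h : (pbStrat β S).act Q x = actM β S Q x := rfl
  rw [h, actM_apply]
  exact LinearEquiv.apply_symm_apply _ _

theorem isPullback_pbStrat [Algebra.FiniteType k A] (i₀ : I) (h0 : β i₀ = 1) :
    IsPullback S (pbStrat β S) (TensorProduct.mk A B E 1) := by
  classical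
  refine ⟨TensorProduct.isBaseChange A E B, ?_⟩
  intro Q n b P hQ e
  apply (TensorProduct.equivFinsuppOfBasisLeft (N := E) β).injective
  rw [pbStrat_act]
  ext l
  have h1 : TensorProduct.equivFinsuppOfBasisLeft (N := E) β (TensorProduct.mk A B E 1 e)
      = Finsupp.single i₀ e := by
    ext l
    rw [TensorProduct.mk_apply, TensorProduct.equivFinsuppOfBasisLeft_apply_tmul_apply, ← h0,
      β.repr_self, Finsupp.single_apply, Finsupp.single_apply]
    split_ifs <;> simp
  rw [h1, actF_single, map_sum, Finsupp.finsetSum_apply]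
  have h2 : ∀ i, TensorProduct.equivFinsuppOfBasisLeft (N := E) β
      (b i • (TensorProduct.mk A B E 1) (S.act (P i) e)) l
      = S.act (mulOp k (β.repr (b i) l) * P i) e := by
    intro i
    rw [TensorProduct.mk_apply, TensorProduct.smul_tmul', smul_eq_mul, mul_one,
      TensorProduct.equivFinsuppOfBasisLeft_apply_tmul_apply, S.act_mul_apply, S.act_mul]
  simp only [h2]
  rw [← S.act_sum]
  congr 2
  apply Subtype.ext
  ext a
  have h3 : ((∑ i, mulOp k (β.repr (b i) l) * P i : D k A) : Module.End k A) a
      = ∑ i, β.repr (b i) l * (P i : Module.End k A) a := by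
    have h := map_sum (D k A).val (fun i => mulOp k (β.repr (b i) l) * P i) Finset.univ
    have h' := congrArg (fun f : Module.End k A => f a) h
    refine h'.trans ?_
    rw [LinearMap.sum_apply]
    rfl
  rw [h3, ent_apply, h0, one_mul, hQ, map_sum, Finsupp.finsetSum_apply]
  refine Finset.sum_congr rfl fun i _ => ?_
  rw [mul_comm, ← Algebra.smul_def, map_smul, Finsupp.smul_apply, smul_eq_mul, mul_comm]

end General

end HI
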