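import Pool.Agent.Lib.HI.Inf

namespace HI

open Polynomial Finset

section Fin

variable {A : Type*} [CommRing A] {M : Type*} [AddCommGroup M] [Module A[X] M] [Module A M]
  [IsScalarTower A A[X] M] {E : Type*} [AddCommGroup E] [Module A E]

/-- the constant term `∑ x^j e_j ↦ e_0` -/
theorem exists_const {ι : E →ₗ[A] M} (h : IsBaseChange A[X] ι) :
    ∃ π : M →ₗ[A] E, (∀ e, π (ι e) = e) ∧ ∀ (f : A[X]) (m : M), π (f • m) = f.eval 0 • π m := by
  -- the `A`-linear map `m ↦ m mod x`, through the base change
  let _ : Module A[X] E := Module.compHom E (Polynomial.evalRingHom (0 : A))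
  have : IsScalarTower A A[X] E := by
    refine ⟨fun a f e => ?_⟩
    show (Polynomial.evalRingHom (0 : A)) (a • f) • e = a • ((Polynomial.evalRingHom (0 : A)) f • e)
    rw [Polynomial.smul_eq_C_mul, map_mul, mul_smul]
    simp
  refine ⟨(h.lift (LinearMap.id : E →ₗ[A] E)).restrictScalars A, fun e => ?_, fun f m => ?_⟩
  · exact h.lift_eq _ e
  · show (h.lift (LinearMap.id : E →ₗ[A] E)) (f • m) = _
    rw [map_smul]
    rfl

theorem finite_projective_of_isBaseChange {ι : E →ₗ[A] M} (h : IsBaseChange A[X] ι)
    [Module.Finite A[X] M] [Module.Projective A[X] M] :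
    Module.Finite A E ∧ Module.Projective A E := by
  obtain ⟨π, hπι, hπ⟩ := exists_const h
  obtain ⟨n, p, g, hp, hg, hpg⟩ := Module.Finite.exists_comp_eq_id_of_projective A[X] M
  -- `E → A^n → E`
  let a : E →ₗ[A] (Fin n → A) := LinearMap.pi fun i =>
    { toFun := fun e => (g (ι e) i).eval 0
      map_add' := by intro x y; simp
      map_smul' := by
        intro c x
        rw [map_smul]
        have : g (c • ι x) = c • g (ι x) := by
          rw [← algebraMap_smul A[X] c (ι x), map_smul, algebraMap_smul]
        rw [this]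
        simp [Polynomial.eval_smul] }
  let b : (Fin n → A) →ₗ[A] E :=
    { toFun := fun v => π (p fun i => C (v i))
      map_add' := by
        intro x y
        rw [← map_add, ← map_add]
        congr 2
        funext i
        simp
      map_smul' := by
        intro c x
        have : (fun i => C ((c • x) i) : Fin n → A[X]) = (C c : A[X]) • fun i => C (x i) := by
          funext i
          simp
        rw [this, map_smul, hπ]
        simp }
  have hab : b ∘ₗ a = LinearMap.id := by
    ext e
    have h1 : ∀ w : Fin n → A[X], π (p w) = π (p fun i => C ((w i).eval 0)) := by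
      intro w
      have h2 : w = (fun i => C ((w i).eval 0)) + (X : A[X]) • fun i => (w i).divX := by
        funext i
        have h3 := Polynomial.divX_mul_X_add (w i)
        simp only [Pi.add_apply, Pi.smul_apply, smul_eq_mul]
        rw [← Polynomial.coeff_zero_eq_eval_zero, mul_comm X, add_comm]
        exact h3.symm
      conv_lhs => rw [h2, map_add, map_smul, map_add, hπ]
      simp
    show π (p fun i => C ((g (ι e) i).eval 0)) = e
    rw [← h1]
    have h4 : p (g (ι e)) = ι e := congrArg (fun l => l (ι e)) hpg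
    rw [h4, hπι]
  refine ⟨Module.Finite.of_surjective b fun e => ⟨a e, congrArg (fun l => l e) hab⟩, ?_⟩
  exact Module.Projective.of_split a b hab

end Fin

section Rep

variable {k : Type*} [CommRing k] {A : Type*} [CommRing A] [Algebra k A]

/-- differential operators `A → A[x]` -/
def IsDM : ℕ → (A →ₗ[k] A[X]) → Prop
  | 0, Q => Q = 0
  | n + 1, Q => ∀ a : A, IsDM n (Q ∘ₗ Algebra.lmul k A a - Algebra.lmul k A[X] (C a) ∘ₗ Q)

/-- the inclusion `A → A[x]` -/
noncomputable def inc (k : Type*) [CommRing k] {A : Type*} [CommRing A] [Algebra k A] :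
    A →ₗ[k] A[X] := (Algebra.linearMap A A[X]).restrictScalars k

theorem inc_apply (a : A) : (inc k a : A[X]) = C a := rfl

theorem isDM_of_isDiff {n : ℕ} : ∀ {Q : Module.End k A[X]}, IsDiff k A[X] n Q →
    IsDM n (Q ∘ₗ inc k) := by
  induction n with
  | zero => intro Q hQ; simp only [IsDiff, IsDM] at *; rw [hQ]; rfl
  | succ n ih =>
    intro Q hQ a
    have h := ih (hQ (C a))
    convert h using 1
    ext b
    simp [inc]

/-- the coefficient of `x^l` of an operator `A → A[x]` -/
noncomputable def cf (Q : A →ₗ[k] A[X]) (l : ℕ) : Module.End k A :=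
  ((Polynomial.lcoeff A l).restrictScalars k) ∘ₗ Q

theorem cf_apply (Q : A →ₗ[k] A[X]) (l : ℕ) (a : A) : cf Q l a = (Q a).coeff l := rfl

theorem isDiff_cf {n : ℕ} (l : ℕ) : ∀ {Q : A →ₗ[k] A[X]}, IsDM n Q → IsDiff k A n (cf Q l) := by
  induction n with
  | zero =>
    intro Q hQ
    simp only [IsDiff, IsDM] at *
    rw [hQ]
    ext a
    simp [cf_apply]
  | succ n ih =>
    intro Q hQ a
    have h := ih (hQ a)
    convert h using 1
    ext b
    simp [cf_apply]

theorem bounded_degree [Algebra.FiniteType k A] {n : ℕ} : ∀ {Q : A →ₗ[k] A[X]}, IsDM n Q →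
    ∃ N : ℕ, ∀ (a : A) (l : ℕ), N ≤ l → (Q a).coeff l = 0 := by
  classical
  induction n with
  | zero =>
    intro Q hQ
    simp only [IsDM] at hQ
    exact ⟨0, fun a l _ => by rw [hQ]; simp⟩
  | succ n ih =>
    intro Q hQ
    obtain ⟨s, hs⟩ := (inferInstance : Algebra.FiniteType k A).1
    choose N hN using fun a => ih (hQ a)
    refine ⟨(∑ a ∈ s, N a) + ((Q 1).natDegree + 1), ?_⟩
    have hclos : ∀ x ∈ Submonoid.closure (s : Set A), ∀ l : ℕ,
        (∑ a ∈ s, N a) + ((Q 1).natDegree + 1) ≤ l → (Q x).coeff l = 0 := by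
      intro x hx
      induction hx using Submonoid.closure_induction_left with
      | one =>
        intro l hl
        exact Polynomial.coeff_eq_zero_of_natDegree_lt (by omega)
      | mul_left a ha y _ ih' =>
        intro l hl
        have hle : N a ≤ ∑ a ∈ s, N a :=
          Finset.single_le_sum (f := N) (fun i _ => Nat.zero_le _) (Finset.mem_coe.mp ha)
        have h1 := hN a y l (by omega)
        have h2 := ih' l hl
        simp only [LinearMap.sub_apply, LinearMap.comp_apply, Algebra.coe_lmul_eq_mul,
          LinearMap.mul_apply', coeff_sub, coeff_C_mul] at h1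
        rw [h2, mul_zero, sub_zero] at h1
        exact h1
    intro a l hl
    have ha : a ∈ Submodule.span k (Submonoid.closure (s : Set A) : Set A) := by
      rw [← Algebra.adjoin_eq_span, hs]
      trivial
    induction ha using Submodule.span_induction with
    | mem x hx => exact hclos x hx l hl
    | zero => simp
    | add x y _ _ hx hy => rw [map_add, coeff_add, hx, hy, add_zero]
    | smul c x _ hx => rw [map_smul, coeff_smul, hx, smul_zero]

/-- Every differential operator on `A[x]` has, on `A`, the form `a ↦ ∑ b_i P_i(a)`. -/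
theorem exists_rep [Algebra.FiniteType k A] (Q : D k A[X]) :
    ∃ (n : ℕ) (b : Fin n → A[X]) (P : Fin n → D k A), ∀ a : A,
      (Q : Module.End k A[X]) (algebraMap A A[X] a)
        = ∑ i, b i * algebraMap A A[X] ((P i : Module.End k A) a) := by
  obtain ⟨n, hn⟩ := Q.2
  have hM := isDM_of_isDiff hn
  obtain ⟨N, hN⟩ := bounded_degree hM
  refine ⟨N + 1, fun i => X ^ (i : ℕ), fun i => ⟨cf ((Q : Module.End k A[X]) ∘ₗ inc k) i, n,
    isDiff_cf _ hM⟩, fun a => ?_⟩
  have h1 : ((Q : Module.End k A[X]) (C a)).natDegree < N + 1 := by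
    rw [Nat.lt_succ_iff, Polynomial.natDegree_le_iff_coeff_eq_zero]
    intro l hl
    exact hN a l hl.le
  rw [Polynomial.algebraMap_eq, Polynomial.as_sum_range' _ _ h1, Finset.sum_range]
  refine Finset.sum_congr rfl fun i _ => ?_
  rw [← C_mul_X_pow_eq_monomial, mul_comm]
  rfl

end Rep

end HI
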