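import Pool.Agent.Lib.HI.Descent

namespace HI

open LaurentPolynomial Finset
open scoped Polynomial

section Laurent

variable {A : Type*} [CommRing A]

theorem coeff_T_mul (m : ℤ) (f : A[T;T⁻¹]) (n : ℤ) : (T m * f).coeff n = f.coeff (n - m) := by
  rw [T, AddMonoidAlgebra.coeff_single_mul_apply, one_mul]
  congr 1
  ring

theorem coeff_C_mul' (a : A) (f : A[T;T⁻¹]) (n : ℤ) : (C a * f).coeff n = a * f.coeff n := by
  rw [← smul_eq_C_mul]
  rfl

/-- the divided power derivative on Laurent polynomials -/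
noncomputable def lh (J : ℕ) : A[T;T⁻¹] →ₗ[A] A[T;T⁻¹] :=
  (AddMonoidAlgebra.basis ℤ A).constr A
    (fun n => ((Ring.choose n J : ℤ) : A[T;T⁻¹]) * T (n - J))

theorem lh_T (J : ℕ) (n : ℤ) : lh J (T n : A[T;T⁻¹]) = ((Ring.choose n J : ℤ) : A[T;T⁻¹]) * T (n - J) := by
  have h : (T n : A[T;T⁻¹]) = AddMonoidAlgebra.basis ℤ A n := by
    rw [AddMonoidAlgebra.basis_apply]; rfl
  rw [h, lh, Module.Basis.constr_basis]

theorem lh_CT (J : ℕ) (a : A) (n : ℤ) : lh J (C a * T n : A[T;T⁻¹])
    = C a * (((Ring.choose n J : ℤ) : A[T;T⁻¹]) * T (n - J)) := by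
  rw [← smul_eq_C_mul, map_smul, lh_T, smul_eq_C_mul]

theorem coeff_intCast_mul (c : ℤ) (f : A[T;T⁻¹]) (n : ℤ) :
    ((c : A[T;T⁻¹]) * f).coeff n = (c : A) * f.coeff n := by
  rw [← coeff_C_mul', map_intCast]

theorem coeff_lh (J : ℕ) (f : A[T;T⁻¹]) (n : ℤ) :
    (lh J f).coeff n = ((Ring.choose (n + J) J : ℤ) : A) * f.coeff (n + J) := by
  induction f using LaurentPolynomial.induction_on' with
  | add p q hp hq => simp only [map_add, AddMonoidAlgebra.coeff_add, Finsupp.add_apply, hp, hq,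
      mul_add]
  | C_mul_T m a =>
    rw [lh_CT, coeff_C_mul', coeff_C_mul', coeff_intCast_mul, T_apply, T_apply]
    by_cases h : m = n + J
    · have h2 : m - J = n := by omega
      rw [if_pos h2, if_pos h, h]
      ring
    · have h2 : ¬ (m - J = n) := by omega
      rw [if_neg h2, if_neg h]
      ring

theorem lh_zero (f : A[T;T⁻¹]) : lh 0 f = f := by
  ext n
  rw [coeff_lh]
  simp

theorem lh_mul (J : ℕ) (f g : A[T;T⁻¹]) :
    lh J (f * g) = ∑ ij ∈ antidiagonal J, lh ij.1 f * lh ij.2 g := by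
  induction f using LaurentPolynomial.induction_on' with
  | add p q hp hq => simp only [add_mul, map_add, hp, hq, Finset.sum_add_distrib]
  | C_mul_T n a =>
    induction g using LaurentPolynomial.induction_on' with
    | add p q hp hq => simp only [mul_add, map_add, hp, hq, Finset.sum_add_distrib]
    | C_mul_T m b =>
      have h1 : (C a * T n * (C b * T m) : A[T;T⁻¹]) = C (a * b) * T (n + m) := by
        rw [map_mul, T_add]; ring
      rw [h1, lh_CT, Ring.add_choose_eq J (Commute.all n m), Int.cast_sum, Finset.sum_mul,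
        Finset.mul_sum]
      refine Finset.sum_congr rfl fun ij hij => ?_
      have hij' : ij.1 + ij.2 = J := by simpa using hij
      rw [lh_CT, lh_CT, map_mul, Int.cast_mul]
      have h2 : (T (n + m - J) : A[T;T⁻¹]) = T (n - ij.1) * T (m - ij.2) := by
        rw [← T_add]
        congr 1
        rw [← hij']
        push_cast
        ring
      rw [h2]
      ring

theorem lh_toLaurent (J : ℕ) (f : A[X]) :
    lh J (Polynomial.toLaurent f) = Polynomial.toLaurent (Polynomial.hasseDeriv J f) := by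
  induction f using Polynomial.induction_on' with
  | add p q hp hq => simp only [map_add, hp, hq]
  | monomial n a =>
    rw [Polynomial.hasseDeriv_monomial, ← Polynomial.C_mul_X_pow_eq_monomial,
      ← Polynomial.C_mul_X_pow_eq_monomial, Polynomial.toLaurent_C_mul_X_pow,
      Polynomial.toLaurent_C_mul_X_pow, lh_CT, Ring.choose_natCast, map_mul]
    rcases lt_or_ge n J with h | h
    · rw [Nat.choose_eq_zero_of_lt h]
      simp
    · have h2 : (((n - J : ℕ)) : ℤ) = (n : ℤ) - J := by omega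
      rw [h2, map_natCast]
      push_cast
      ring

variable (k : Type*) [CommRing k] [Algebra k A]

/-- the divided power derivative as a differential operator on `A[x, x⁻¹]` -/
noncomputable def ldp (J : ℕ) : D k A[T;T⁻¹] :=
  ⟨(lh (A := A) J).restrictScalars k, J + 1,
    isDiff_of_leibniz (k := k) (B := A[T;T⁻¹]) (fun J => (lh (A := A) J).restrictScalars k)
      (LinearMap.ext fun f => lh_zero f) (fun J f g => lh_mul J f g) J⟩

theorem ldp_apply (J : ℕ) (f : A[T;T⁻¹]) :
    ((ldp k J : D k A[T;T⁻¹]) : Module.End k A[T;T⁻¹]) f = lh J f := rfl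

theorem mem_chartInf (f : A[T;T⁻¹]) : f ∈ chartInf A ↔ ∀ n : ℤ, 0 < n → f.coeff n = 0 := by
  constructor
  · intro hf
    rw [chartInf, Algebra.adjoin_singleton_eq_range_aeval] at hf
    obtain ⟨p, rfl⟩ := hf
    intro n hn
    induction p using Polynomial.induction_on' with
    | add p q hp hq =>
      have hp' := hp
      have hq' := hq
      rw [map_add, AddMonoidAlgebra.coeff_add, Finsupp.add_apply]
      exact (congrArg₂ (· + ·) hp hq).trans (add_zero _)
    | monomial i a =>
      show ((Polynomial.aeval (T (-1) : A[T;T⁻¹])) (Polynomial.monomial i a)).coeff n = 0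
      rw [Polynomial.aeval_monomial, T_pow, ← C_eq_algebraMap, coeff_C_mul', T_apply, if_neg,
        mul_zero]
      omega
  · intro h
    have h1 : f = ∑ n ∈ f.coeff.support, f.coeff n • T n := by
      ext m
      rw [AddMonoidAlgebra.coeff_sum, Finsupp.finsetSum_apply]
      simp only [AddMonoidAlgebra.coeff_smul_apply, T_apply, smul_eq_mul, mul_ite, mul_one,
        mul_zero, Finset.sum_ite_eq', Finsupp.mem_support_iff]
      split_ifs with hm
      · rfl
      · exact Finsupp.notMem_support_iff.mp hm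
    rw [h1]
    apply Subalgebra.sum_mem
    intro n hn
    apply Subalgebra.smul_mem
    have hn0 : n ≤ 0 := by
      by_contra hcon
      exact (Finsupp.mem_support_iff.mp hn) (h n (by omega))
    have h2 : (T n : A[T;T⁻¹]) = T (-1) ^ (-n).toNat := by
      rw [T_pow]
      congr 1
      omega
    rw [h2]
    exact pow_mem (Algebra.subset_adjoin (Set.mem_singleton _)) _

/-- the operator `x^(J-i) ∂^{(J)} x^i` -/
noncomputable def dlog (i : ℤ) (J : ℕ) : D k A[T;T⁻¹] :=
  mulOp k (T (J - i)) * ldp k J * mulOp k (T i)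

theorem dlog_coeff (i : ℤ) (J : ℕ) (f : A[T;T⁻¹]) (n : ℤ) :
    (((dlog k i J : D k A[T;T⁻¹]) : Module.End k A[T;T⁻¹]) f).coeff n
      = ((Ring.choose (n + i) J : ℤ) : A) * f.coeff n := by
  have h1 : ((dlog k i J : D k A[T;T⁻¹]) : Module.End k A[T;T⁻¹]) f
      = T (J - i) * lh J (T i * f) := by
    rw [dlog]
    simp only [MulMemClass.coe_mul, mulOp_coe, Module.End.mul_apply, Algebra.coe_lmul_eq_mul,
      LinearMap.mul_apply', ldp_apply]
  rw [h1, coeff_T_mul, coeff_lh, coeff_T_mul]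
  congr 2
  · congr 1
    ring
  · ring

theorem isLog_dlog (i : ℤ) (J : ℕ) : IsLog k A (dlog k i J) := by
  intro l f hf
  refine ⟨T l * ((dlog k i J : D k A[T;T⁻¹]) : Module.End k A[T;T⁻¹]) (T (-(l : ℤ)) * f), ?_, ?_⟩
  · rw [mem_chartInf] at hf ⊢
    intro n hn
    rw [coeff_T_mul, dlog_coeff, coeff_T_mul, hf _ (by omega), mul_zero]
  · rw [← mul_assoc, ← T_add, neg_add_cancel, T_zero, one_mul]

theorem T_neg_mem (a : ℕ) : (T (-(a : ℤ)) : A[T;T⁻¹]) ∈ chartInf A := by
  rw [mem_chartInf]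
  intro n hn
  rw [T_apply, if_neg (by omega)]

theorem exists_T_neg_mul_mem (f : A[T;T⁻¹]) : ∃ s : ℕ, T (-(s : ℤ)) * f ∈ chartInf A := by
  classical
  refine ⟨∑ n ∈ f.coeff.support, n.natAbs, ?_⟩
  rw [mem_chartInf]
  intro n hn
  rw [coeff_T_mul]
  by_contra hne
  have hmem := Finsupp.mem_support_iff.mpr hne
  have hle := Finset.single_le_sum (f := fun n : ℤ => n.natAbs) (fun i _ => Nat.zero_le _) hmem
  simp only at hle
  omega

end Laurent

section Main

universe u

variable (k : Type*) [CommRing k] {A : Type u} [CommRing A] [Algebra k A]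

theorem exists_shift {V : Type*} [AddCommGroup V] [Module A[T;T⁻¹] V]
    (N : Submodule (chartInf A) V) (hspan : Submodule.span A[T;T⁻¹] (N : Set V) = ⊤) (v : V) :
    ∃ i : ℕ, (T (-(i : ℤ)) : A[T;T⁻¹]) • v ∈ N := by
  have hmono : ∀ (w : V) (i a : ℕ), (T (-(i : ℤ)) : A[T;T⁻¹]) • w ∈ N →
      (T (-((a + i : ℕ) : ℤ)) : A[T;T⁻¹]) • w ∈ N := by
    intro w i a h
    have h1 : (T (-((a + i : ℕ) : ℤ)) : A[T;T⁻¹]) • w
        = (⟨T (-(a : ℤ)), T_neg_mem a⟩ : chartInf A) • ((T (-(i : ℤ)) : A[T;T⁻¹]) • w) := by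
      rw [Subalgebra.smul_def, smul_smul, ← T_add]
      congr 2
      push_cast
      ring
    rw [h1]
    exact N.smul_mem _ h
  have hv : v ∈ Submodule.span A[T;T⁻¹] (N : Set V) := by rw [hspan]; trivial
  induction hv using Submodule.span_induction with
  | mem x hx => exact ⟨0, by simpa using hx⟩
  | zero => exact ⟨0, by simp⟩
  | add x y _ _ hx hy =>
    obtain ⟨i, hi⟩ := hx
    obtain ⟨j, hj⟩ := hy
    refine ⟨j + i, ?_⟩
    rw [smul_add]
    refine N.add_mem (hmono x i j hi) ?_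
    rw [add_comm j i]
    exact hmono y j i hj
  | smul f x _ hx =>
    obtain ⟨i, hi⟩ := hx
    obtain ⟨s, hs⟩ := exists_T_neg_mul_mem f
    refine ⟨s + i, ?_⟩
    have h1 : (T (-((s + i : ℕ) : ℤ)) : A[T;T⁻¹]) • f • x
        = (⟨T (-(s : ℤ)) * f, hs⟩ : chartInf A) • ((T (-(i : ℤ)) : A[T;T⁻¹]) • x) := by
      rw [Subalgebra.smul_def, smul_smul, smul_smul]
      congr 1
      have : (T (-((s + i : ℕ) : ℤ)) : A[T;T⁻¹]) = T (-(s : ℤ)) * T (-(i : ℤ)) := by
        rw [← T_add]
        congr 1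
        push_cast
        ring
      rw [this]
      ring
    rw [h1]
    exact N.smul_mem _ hi

theorem exists_bound {V : Type*} [AddCommGroup V] [Module A[T;T⁻¹] V]
    (N : Submodule (chartInf A) V) (hN : N.FG) {n : ℕ}
    (G : V →ₗ[A[T;T⁻¹]] (Fin n → A[T;T⁻¹])) :
    ∃ c : ℕ, ∀ v ∈ N, ∀ (i : Fin n) (q : ℤ), (c : ℤ) < q → (G v i).coeff q = 0 := by
  classical
  obtain ⟨s, rfl⟩ := hN
  refine ⟨∑ v ∈ s, ∑ i, ∑ q ∈ (G v i).coeff.support, q.natAbs, ?_⟩
  intro v hv
  induction hv using Submodule.span_induction with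
  | mem x hx =>
    intro i q hq
    by_contra hne
    have hmem := Finsupp.mem_support_iff.mpr hne
    have h1 : q.natAbs ≤ ∑ q ∈ (G x i).coeff.support, q.natAbs :=
      Finset.single_le_sum (f := fun n : ℤ => n.natAbs) (fun i _ => Nat.zero_le _) hmem
    have h2 : ∑ q ∈ (G x i).coeff.support, q.natAbs
        ≤ ∑ i, ∑ q ∈ (G x i).coeff.support, q.natAbs :=
      Finset.single_le_sum (f := fun i => ∑ q ∈ (G x i).coeff.support, q.natAbs)
      (fun i _ => Nat.zero_le _) (Finset.mem_univ i)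
    have h3 : ∑ i, ∑ q ∈ (G x i).coeff.support, q.natAbs
        ≤ ∑ v ∈ s, ∑ i, ∑ q ∈ (G v i).coeff.support, q.natAbs :=
      Finset.single_le_sum
      (f := fun v => ∑ i, ∑ q ∈ (G v i).coeff.support, q.natAbs)
      (fun i _ => Nat.zero_le _) (Finset.mem_coe.mp hx)
    omega
  | zero => intro i q _; simp
  | add x y _ _ hx hy =>
    intro i q hq
    rw [map_add, Pi.add_apply, AddMonoidAlgebra.coeff_add, Finsupp.add_apply, hx i q hq,
      hy i q hq, add_zero]
  | smul f x _ hx =>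
    intro i q hq
    have h1 : G (f • x) i = (f : A[T;T⁻¹]) * G x i := by
      rw [Subalgebra.smul_def, map_smul]
      rfl
    rw [h1]
    set c := ∑ v ∈ s, ∑ i, ∑ q ∈ (G v i).coeff.support, q.natAbs with hc
    have h2 : (T (-(c : ℤ)) : A[T;T⁻¹]) * G x i ∈ chartInf A := by
      rw [mem_chartInf]
      intro r hr
      rw [coeff_T_mul]
      exact hx i _ (by omega)
    have h3 := (chartInf A).mul_mem f.2 h2
    rw [mem_chartInf] at h3
    have h4 := h3 (q - c) (by omega)
    rw [mul_left_comm, coeff_T_mul] at h4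
    rw [← h4]
    congr 1
    ring

variable {k}

theorem nilpotent_of_regular {M : Type u} [AddCommGroup M] [Module A[X] M]
    [Module.Finite A[X] M] [Module.Projective A[X] M] (S : Strat k A[X] M)
    (h : RegularAtInfinity S) (m : M) : ∃ N, ∀ j, N ≤ j → S.act (dp k j) m = 0 := by
  obtain ⟨V, _, _, _, _, SV, j, ⟨hbc, hpb⟩, N, hN, hspan, hlog⟩ := h
  obtain ⟨n, π, g, hπ, hg, hπg⟩ := Module.Finite.exists_comp_eq_id_of_projective A[X] M
  let g' : M →ₗ[A[X]] (Fin n → A[T;T⁻¹]) :=
    LinearMap.pi fun i => (Algebra.linearMap A[X] A[T;T⁻¹]) ∘ₗ (LinearMap.proj i) ∘ₗ g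
  let G : V →ₗ[A[T;T⁻¹]] (Fin n → A[T;T⁻¹]) := hbc.lift g'
  have hG : ∀ (m : M) (i : Fin n), G (j m) i = Polynomial.toLaurent (g m i) := by
    intro m i
    have := hbc.lift_eq g' m
    rw [this]
    rfl
  obtain ⟨c, hc⟩ := exists_bound N hN G
  obtain ⟨i, hi⟩ := exists_shift N hspan (j m)
  refine ⟨c + i + 1, ?_⟩
  intro J hJ
  have hd : j (S.act (dp k J) m) = SV.act (ldp k J) (j m) := by
    have h1 := hpb (ldp k J) 1 (fun _ => 1) (fun _ => dp k J) (by
      intro f
      rw [ldp_apply, LaurentPolynomial.algebraMap_eq_toLaurent, lh_toLaurent]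
      simp [LaurentPolynomial.algebraMap_eq_toLaurent]) m
    rw [h1]
    simp
  have hmem : (T ((J : ℤ) - i) : A[T;T⁻¹]) • j (S.act (dp k J) m) ∈ N := by
    have h1 := hlog (dlog k i J) (isLog_dlog k i J) _ hi
    rw [dlog, SV.act_mul_apply, SV.act_mul_apply, SV.act_mul, SV.act_mul, smul_smul, ← T_add,
      add_neg_cancel, T_zero, one_smul, ← hd] at h1
    exact h1
  apply hg
  rw [map_zero]
  funext l
  rw [Pi.zero_apply]
  apply Polynomial.toLaurent_injective
  rw [map_zero]
  ext q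
  have h1 := hc _ hmem l (q + J - i)
  rw [map_smul, Pi.smul_apply, hG, smul_eq_mul, coeff_T_mul] at h1
  have e1 : q + (J : ℤ) - i - (J - i) = q := by ring
  rw [e1] at h1
  rcases lt_or_ge q 0 with hq | hq
  · have h2 : q ∉ (Polynomial.toLaurent (g (S.act (dp k J) m) l)).coeff.support := by
      rw [LaurentPolynomial.support_coeff_toLaurent]
      intro h3
      obtain ⟨a, _, ha⟩ := Finset.mem_map.mp h3
      have : (0 : ℤ) ≤ q := by rw [← ha]; exact Int.natCast_nonneg a
      omega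
    rw [Finsupp.notMem_support_iff.mp h2]
    rfl
  · rw [h1 (by omega)]
    rfl

end Main

end HI
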