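import Pool.Agent.Lib.HI.Defs

namespace HI

open Polynomial Finset

section General

variable {k : Type*} [CommRing k] {B : Type*} [CommRing B] [Algebra k B]

theorem IsDiff.lmul_mul {n : ℕ} : ∀ {P : Module.End k B} (c : B), IsDiff k B n P →
    IsDiff k B n (Algebra.lmul k B c * P) := by
  induction n with
  | zero => intro P c hP; simp only [IsDiff] at *; rw [hP, mul_zero]
  | succ n ih =>
    intro P c hP b
    have := ih c (hP b)
    convert this using 1
    rw [mul_sub, ← mul_assoc, ← mul_assoc, ← mul_assoc, ← map_mul, mul_comm b c, map_mul]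

theorem IsDiff.sum {n : ℕ} {σ : Type*} (s : Finset σ) (P : σ → Module.End k B)
    (h : ∀ i ∈ s, IsDiff k B n (P i)) : IsDiff k B n (∑ i ∈ s, P i) := by
  classical
  induction s using Finset.induction_on with
  | empty => simpa using isDiff_zero n
  | insert a s ha ih =>
    rw [Finset.sum_insert ha]
    exact (h a (by simp)).add (ih fun i hi => h i (by simp [hi]))

/-- Members of a Hasse-Schmidt family are differential operators. -/
theorem isDiff_of_leibniz (H : ℕ → Module.End k B) (h0 : H 0 = 1)
    (hL : ∀ J f g, H J (f * g) = ∑ ij ∈ antidiagonal J, H ij.1 f * H ij.2 g) (J : ℕ) :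
    IsDiff k B (J + 1) (H J) := by
  induction J using Nat.strong_induction_on with
  | _ J ih =>
    intro b
    rcases J with _ | J
    · show _ = _
      rw [h0]; simp
    have key : H (J + 1) * Algebra.lmul k B b - Algebra.lmul k B b * H (J + 1)
        = ∑ ij ∈ antidiagonal J, Algebra.lmul k B (H (ij.1 + 1) b) * H ij.2 := by
      ext g
      simp only [LinearMap.sub_apply, Module.End.mul_apply, LinearMap.sum_apply,
        Algebra.coe_lmul_eq_mul, LinearMap.mul_apply', hL]
      rw [Finset.Nat.sum_antidiagonal_succ]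
      simp [h0]
    rw [key]
    apply IsDiff.sum
    intro ij hij
    have hij' := mem_antidiagonal.mp hij
    exact (IsDiff.mono (by omega) (ih ij.2 (by omega))).lmul_mul _

@[simp] theorem mulOp_coe (b : B) : ((mulOp k b : D k B) : Module.End k B) = Algebra.lmul k B b :=
  rfl

theorem mulOp_mul (b c : B) : mulOp k (b * c) = mulOp k b * mulOp k c :=
  Subtype.ext (map_mul (Algebra.lmul k B) b c)

theorem mulOp_add (b c : B) : mulOp k (b + c) = mulOp k b + mulOp k c :=
  Subtype.ext (map_add (Algebra.lmul k B) b c)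

theorem mulOp_one : mulOp k (1 : B) = 1 :=
  Subtype.ext (map_one (Algebra.lmul k B))

end General

section Poly

variable (k : Type*) [CommRing k] {A : Type*} [CommRing A] [Algebra k A]

/-- The divided power derivative `∂^{(J)} = (1/J!) d^J/dx^J` on `A[x]`. -/
noncomputable def dp (J : ℕ) : D k A[X] :=
  ⟨(hasseDeriv J).restrictScalars k, J + 1,
    isDiff_of_leibniz (fun J => (hasseDeriv (R := A) J).restrictScalars k)
      (by ext1 f; simp) (fun J f g => by simp [hasseDeriv_mul]) J⟩

@[simp] theorem dp_apply (J : ℕ) (f : A[X]) :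
    ((dp k J : D k A[X]) : Module.End k A[X]) f = hasseDeriv J f := rfl

/-- coefficientwise extension of a `k`-linear endomorphism of `A` to `A[x]` -/
noncomputable def ext0 (P : Module.End k A) : Module.End k A[X] :=
  Polynomial.lsum (fun n => (monomial n).restrictScalars k ∘ₗ P)

theorem ext0_monomial (P : Module.End k A) (n : ℕ) (a : A) :
    ext0 k P (monomial n a) = monomial n (P a) := by
  simp [ext0, Polynomial.lsum]

theorem coeff_ext0 (P : Module.End k A) (f : A[X]) (n : ℕ) :
    (ext0 k P f).coeff n = P (f.coeff n) := by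
  induction f using Polynomial.induction_on' with
  | add p q hp hq => simp [hp, hq]
  | monomial m a =>
    rw [ext0_monomial, coeff_monomial, coeff_monomial]
    split_ifs <;> simp

theorem ext0_lmul (a : A) : ext0 k (Algebra.lmul k A a) = Algebra.lmul k A[X] (C a) := by
  ext1 f
  ext n
  simp [coeff_ext0]

theorem ext0_add (P Q : Module.End k A) : ext0 k (P + Q) = ext0 k P + ext0 k Q := by
  ext1 f
  ext n
  simp [coeff_ext0]

theorem ext0_sub (P Q : Module.End k A) : ext0 k (P - Q) = ext0 k P - ext0 k Q := by
  ext1 f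
  ext n
  simp [coeff_ext0]

theorem ext0_mul (P Q : Module.End k A) : ext0 k (P * Q) = ext0 k P * ext0 k Q := by
  ext1 f
  ext n
  simp [coeff_ext0]

theorem ext0_one : ext0 k (1 : Module.End k A) = 1 := by
  ext1 f
  ext n
  simp [coeff_ext0]

theorem ext0_zero : ext0 k (0 : Module.End k A) = 0 := by
  ext1 f
  ext n
  simp [coeff_ext0]

theorem ext0_C (P : Module.End k A) (a : A) : ext0 k P (C a) = C (P a) := by
  rw [← monomial_zero_left, ext0_monomial, monomial_zero_left]

/-- the coefficientwise extension of a differential operator is a differential operator -/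
theorem isDiff_ext0 {n : ℕ} : ∀ {P : Module.End k A}, IsDiff k A n P →
    IsDiff k A[X] n (ext0 k P) := by
  induction n with
  | zero => intro P hP; simp only [IsDiff] at *; rw [hP, ext0_zero]
  | succ n ih =>
    intro P hP b
    have key : ext0 k P * Algebra.lmul k A[X] b - Algebra.lmul k A[X] b * ext0 k P
        = ∑ i ∈ b.support, Algebra.lmul k A[X] (X ^ i) *
            ext0 k (P * Algebra.lmul k A (b.coeff i) - Algebra.lmul k A (b.coeff i) * P) := by
      have h1 : Algebra.lmul k A[X] b
          = ∑ i ∈ b.support, Algebra.lmul k A[X] (X ^ i) * Algebra.lmul k A[X] (C (b.coeff i)) := by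
        conv_lhs => rw [b.as_sum_support_C_mul_X_pow]
        rw [map_sum]
        refine Finset.sum_congr rfl fun i _ => ?_
        rw [← map_mul, mul_comm]
      have h2 : ∀ i, ext0 k P * Algebra.lmul k A[X] (X ^ i)
          = Algebra.lmul k A[X] (X ^ i) * ext0 k P := by
        intro i
        ext1 f
        ext n
        simp only [Module.End.mul_apply, Algebra.coe_lmul_eq_mul, LinearMap.mul_apply',
          coeff_ext0, coeff_X_pow_mul']
        split_ifs <;> simp
      rw [h1, Finset.mul_sum, Finset.sum_mul, ← Finset.sum_sub_distrib]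
      refine Finset.sum_congr rfl fun i _ => ?_
      rw [ext0_sub, ext0_mul, ext0_mul, ext0_lmul, ← mul_assoc, h2, mul_sub, mul_assoc, mul_assoc]
    rw [key]
    apply IsDiff.sum
    intro i _
    exact (ih (hP _)).lmul_mul _

/-- The ring homomorphism `D_{A/k} → D_{A[x]/k}`, `P ↦ P ⊗ 1`. -/
noncomputable def extD : D k A →+* D k A[X] where
  toFun P := ⟨ext0 k (P : Module.End k A), P.2.imp fun _ h => isDiff_ext0 k h⟩
  map_one' := Subtype.ext (ext0_one k)
  map_mul' _ _ := Subtype.ext (ext0_mul k _ _)
  map_zero' := Subtype.ext (ext0_zero k)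
  map_add' _ _ := Subtype.ext (ext0_add k _ _)

@[simp] theorem extD_coe (P : D k A) :
    ((extD k P : D k A[X]) : Module.End k A[X]) = ext0 k (P : Module.End k A) := rfl

theorem extD_mulOp (a : A) : extD k (mulOp k a) = mulOp k (C a) :=
  Subtype.ext (ext0_lmul k a)

theorem dp_mul_extD (J : ℕ) (P : D k A) : dp k J * extD k P = extD k P * dp k J := by
  apply Subtype.ext
  ext1 f
  ext n
  simp only [MulMemClass.coe_mul, Module.End.mul_apply, extD_coe, dp_apply, coeff_ext0,
    hasseDeriv_coeff]
  rw [← nsmul_eq_mul, ← nsmul_eq_mul, map_nsmul]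

theorem dp_zero : (dp k 0 : D k A[X]) = 1 := by
  apply Subtype.ext
  ext1 f
  simp

theorem dp_mul_dp (i j : ℕ) : (dp k i * dp k j : D k A[X]) = (i + j).choose i • dp k (i + j) := by
  apply Subtype.ext
  ext1 f
  have := congrArg (fun g => g f) (hasseDeriv_comp (R := A) i j)
  simpa using this

theorem dp_mul_X_pow (i j : ℕ) : (dp k i * mulOp k (X ^ j) : D k A[X])
    = ∑ ab ∈ antidiagonal i, j.choose ab.1 • (mulOp k (X ^ (j - ab.1)) * dp k ab.2) := by
  apply Subtype.ext
  ext1 f
  simp only [MulMemClass.coe_mul, mulOp_coe, Module.End.mul_apply, Algebra.coe_lmul_eq_mul,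
    LinearMap.mul_apply', dp_apply, hasseDeriv_mul, AddSubmonoidClass.coe_finsetSum,
    LinearMap.sum_apply]
  refine Finset.sum_congr rfl fun ab _ => ?_
  rw [← monomial_one_right_eq_X_pow, hasseDeriv_monomial]
  have h : ((j.choose ab.1 • (mulOp k (X ^ (j - ab.1)) * dp k ab.2) : D k A[X]) :
      Module.End k A[X]) = j.choose ab.1 • ((mulOp k (X ^ (j - ab.1)) * dp k ab.2 : D k A[X]) :
      Module.End k A[X]) := map_nsmul (D k A[X]).val _ _
  rw [h, LinearMap.smul_apply]
  simp only [mul_one, MulMemClass.coe_mul, mulOp_coe,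
    Module.End.mul_apply, Algebra.coe_lmul_eq_mul, LinearMap.mul_apply', dp_apply, nsmul_eq_mul]
  rw [← C_mul_X_pow_eq_monomial, map_natCast, mul_assoc]

end Poly

end HI
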