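import Pool.Agent.Lib.HI.Exist

namespace HI

open Finset

section Trans

variable {k : Type*} [CommRing k] {A : Type*} [CommRing A] [Algebra k A]
  {B : Type*} [CommRing B] [Algebra k B] [Algebra A B] [IsScalarTower k A B]
  {E M : Type*} [AddCommGroup E] [Module A E] [AddCommGroup M] [Module B M] [Module A M]
  [IsScalarTower A B M] {S : Strat k A E} {T : Strat k B M} {ι : E →ₗ[A] M}

omit [IsScalarTower k A B] in
theorem IsPullback.act_eq (h : IsPullback S T ι) {σ : Type*} [Fintype σ] (Q : D k B) (b : σ → B)
    (P : σ → D k A) (hQ : ∀ a : A, (Q : Module.End k B) (algebraMap A B a)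
        = ∑ i, b i * algebraMap A B ((P i : Module.End k A) a)) (e : E) :
    T.act Q (ι e) = ∑ i, b i • ι (S.act (P i) e) := by
  classical
  have h1 := h.2 Q (Fintype.card σ) (fun i => b ((Fintype.equivFin σ).symm i))
    (fun i => P ((Fintype.equivFin σ).symm i)) (fun a => by
      rw [hQ a]
      exact (Equiv.sum_comp (Fintype.equivFin σ).symm
        (fun i => b i * algebraMap A B ((P i : Module.End k A) a))).symm) e
  rw [h1]
  exact Equiv.sum_comp (Fintype.equivFin σ).symm (fun i => b i • ι (S.act (P i) e))

/-- operators on `B` restricted to `A` -/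
theorem exists_rep' {I : Type*} (β : Module.Basis I A B) [Algebra.FiniteType k A] (Q : D k B) :
    ∃ (s : Finset I) (P : I → D k A), (∀ a : A,
      (Q : Module.End k B) (algebraMap A B a)
        = ∑ i ∈ s, β i * algebraMap A B ((P i : Module.End k A) a)) ∧
      ∀ (l : I) (a : A), (P l : Module.End k A) a
        = β.repr ((Q : Module.End k B) (algebraMap A B a)) l := by
  obtain ⟨n, hn⟩ := Q.2
  have hM := isDB_of_isDiff (A := A) (1 : B) hn
  obtain ⟨s, hs⟩ := bounded_support β hM
  refine ⟨s, fun i => ⟨cB β ((Q : Module.End k B) ∘ₗ incB k 1) i, n, isDiff_cB β i hM⟩,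
    fun a => ?_, fun l a => ?_⟩
  · have hs' : ∀ l, l ∉ s → β.repr ((Q : Module.End k B) (algebraMap A B a)) l = 0 := by
      intro l hl
      have := hs a l hl
      simpa [incB_apply] using this
    conv_lhs => rw [← β.linearCombination_repr ((Q : Module.End k B) (algebraMap A B a))]
    rw [Finsupp.linearCombination_apply, Finsupp.sum_of_support_subset _ (s := s)]
    · refine Finset.sum_congr rfl fun l _ => ?_
      rw [Algebra.smul_def, mul_comm]
      simp [cB_apply, incB_apply]
    · intro l hl
      by_contra hcon
      exact (Finsupp.mem_support_iff.mp hl) (hs' l hcon)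
    · simp
  · simp [cB_apply, incB_apply]

variable {B' : Type*} [CommRing B'] [Algebra k B'] [Algebra A B'] [Algebra B B']
  [IsScalarTower A B B']
  {V : Type*} [AddCommGroup V] [Module B' V] [Module B V] [Module A V]
  [IsScalarTower B B' V] [IsScalarTower A B V] [IsScalarTower A B' V] {T' : Strat k B' V}
  {ι' : E →ₗ[A] V}

omit [IsScalarTower k A B] in
theorem IsPullback.of_comp (h : IsPullback S T ι) (h' : IsPullback S T' ι')
    (hrep : ∀ Q : D k B, ∃ (n : ℕ) (b : Fin n → B) (P : Fin n → D k A), ∀ a : A,
      (Q : Module.End k B) (algebraMap A B a)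
        = ∑ i, b i * algebraMap A B ((P i : Module.End k A) a))
    (j : M →ₗ[B] V) (hj : ∀ e, j (ι e) = ι' e) : IsPullback T T' j := by
  refine ⟨IsBaseChange.of_comp h.1 ?_, ?_⟩
  · have : ((j : M →ₗ[B] V).restrictScalars A) ∘ₗ ι = ι' := by
      ext e; exact hj e
    rw [this]
    exact h'.1
  · intro Q n b P hQ m
    induction m using h.1.inductionOn generalizing Q n P with
    | zero => simp
    | tmul e =>
      choose N c R hR using fun i => hrep (P i)
      have h1 : ∀ i, T.act (P i) (ι e) = ∑ t, c i t • ι (S.act (R i t) e) := by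
        intro i
        exact h.2 (P i) (N i) (c i) (R i) (hR i) e
      rw [hj]
      rw [h'.act_eq (σ := Σ i : Fin n, Fin (N i)) Q
        (fun x => b x.1 * algebraMap B B' (c x.1 x.2)) (fun x => R x.1 x.2) (fun a => by
          have h2 := hQ (algebraMap A B a)
          rw [← IsScalarTower.algebraMap_apply A B B'] at h2
          rw [h2, Fintype.sum_sigma]
          refine Finset.sum_congr rfl fun i _ => ?_
          rw [hR i a, map_sum, Finset.mul_sum]
          refine Finset.sum_congr rfl fun t _ => ?_
          rw [map_mul, ← IsScalarTower.algebraMap_apply A B B', mul_assoc]) e]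
      rw [Fintype.sum_sigma]
      refine Finset.sum_congr rfl fun i _ => ?_
      rw [h1 i, map_sum, Finset.smul_sum]
      refine Finset.sum_congr rfl fun t _ => ?_
      rw [map_smul, hj, mul_smul, algebraMap_smul]
    | smul f m ih =>
      have h1 : T'.act Q (j (f • m)) = T'.act (Q * mulOp k (algebraMap B B' f)) (j m) := by
        rw [T'.act_mul_apply, T'.act_mul, map_smul, algebraMap_smul]
      rw [h1, ih (Q * mulOp k (algebraMap B B' f)) n b (fun i => P i * mulOp k f) (by
        intro g
        have h2 := hQ (f * g)
        rw [map_mul] at h2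
        exact h2)]
      refine Finset.sum_congr rfl fun i _ => ?_
      rw [T.act_mul_apply, T.act_mul]
    | add x y hx hy =>
      rw [map_add, map_add, hx Q n b P hQ, hy Q n b P hQ, ← Finset.sum_add_distrib]
      refine Finset.sum_congr rfl fun i _ => ?_
      rw [map_add, map_add, smul_add]

end Trans

section Inf

open LaurentPolynomial
open scoped Polynomial

universe u

variable {k : Type*} [CommRing k] {A : Type u} [CommRing A] [Algebra k A]
  {E : Type u} [AddCommGroup E] [Module A E] (S : Strat k A E)

instance laurentTower : IsScalarTower A A[X] A[T;T⁻¹] :=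
  IsScalarTower.of_algebraMap_eq fun a => by
    rw [LaurentPolynomial.algebraMap_eq_toLaurent, Polynomial.algebraMap_eq,
      Polynomial.toLaurent_C, C_eq_algebraMap]

/-- The pull-back of a coherent stratified module on `X` to `X × A^1` exists and is regular
singular along `X × {∞}`. -/
theorem exists_pullback [Algebra.FiniteType k A] [Module.Finite A E] :
    ∃ (T : Strat k A[X] (TensorProduct A A[X] E)),
      IsPullback S T (TensorProduct.mk A A[X] E 1) ∧ RegularAtInfinity T := by
  have hb0 : (Polynomial.basisMonomials A) 0 = 1 := by simp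
  have hc0 : (AddMonoidAlgebra.basis ℤ A) 0 = 1 := by
    rw [AddMonoidAlgebra.basis_apply]; rfl
  have h1 := isPullback_pbStrat (Polynomial.basisMonomials A) S 0 hb0
  refine ⟨pbStrat (Polynomial.basisMonomials A) S, h1, ?_⟩
  have h2 := isPullback_pbStrat (AddMonoidAlgebra.basis ℤ A) S 0 hc0
  let j : TensorProduct A A[X] E →ₗ[A[X]] TensorProduct A A[T;T⁻¹] E :=
    TensorProduct.AlgebraTensorModule.map (Algebra.linearMap A[X] A[T;T⁻¹]) LinearMap.id
  refine ⟨TensorProduct A A[T;T⁻¹] E, inferInstance, inferInstance, inferInstance, inferInstance,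
    pbStrat (AddMonoidAlgebra.basis ℤ A) S, j, ?_, ?_⟩
  · exact h1.of_comp h2 exists_rep j (fun e => by simp [j])
  · classical
    obtain ⟨s, hs⟩ := (inferInstance : Module.Finite A E).1
    let ι' : E →ₗ[A] TensorProduct A A[T;T⁻¹] E := TensorProduct.mk A A[T;T⁻¹] E 1
    have hCmem : ∀ a : A, (algebraMap A A[T;T⁻¹] a) ∈ chartInf A := fun a =>
      (chartInf A).algebraMap_mem a
    have hrange : ∀ e : E, ι' e ∈ Submodule.span (chartInf A)
        ((s.image ι' : Finset _) : Set (TensorProduct A A[T;T⁻¹] E)) := by
      intro e
      have he : e ∈ Submodule.span A (s : Set E) := by rw [hs]; trivial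
      induction he using Submodule.span_induction with
      | mem x hx =>
        apply Submodule.subset_span
        rw [Finset.coe_image]
        exact ⟨x, hx, rfl⟩
      | zero => rw [map_zero]; exact Submodule.zero_mem _
      | add x y _ _ hx hy => rw [map_add]; exact Submodule.add_mem _ hx hy
      | smul a x _ hx =>
        have : ι' (a • x) = (⟨algebraMap A A[T;T⁻¹] a, hCmem a⟩ : chartInf A) • ι' x := by
          rw [map_smul, Subalgebra.smul_def, algebraMap_smul]
        rw [this]
        exact Submodule.smul_mem _ _ hx
    refine ⟨Submodule.span (chartInf A)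
        ((s.image ι' : Finset _) : Set (TensorProduct A A[T;T⁻¹] E)), ⟨_, rfl⟩, ?_, ?_⟩
    · rw [eq_top_iff]
      rintro x -
      induction x using TensorProduct.induction_on with
      | zero => exact Submodule.zero_mem _
      | tmul f e =>
        have : f ⊗ₜ[A] e = f • ι' e := by
          rw [TensorProduct.mk_apply, TensorProduct.smul_tmul', smul_eq_mul, mul_one]
        rw [this]
        exact Submodule.smul_mem _ _ (Submodule.subset_span (hrange e))
      | add x y hx hy => exact Submodule.add_mem _ hx hy
    · intro P hP v hv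
      induction hv using Submodule.span_induction generalizing P with
      | mem x hx =>
        rw [Finset.coe_image] at hx
        obtain ⟨e, _, rfl⟩ := hx
        obtain ⟨F, R, hR, hR'⟩ := exists_rep' (AddMonoidAlgebra.basis ℤ A) P
        have hR0 : ∀ l : ℤ, 0 < l → R l = 0 := by
          intro l hl
          apply Subtype.ext
          ext a
          rw [hR' l a]
          obtain ⟨g, hg, hgeq⟩ := hP 0 (algebraMap A A[T;T⁻¹] a) (hCmem a)
          have h4 : (P : Module.End k A[T;T⁻¹]) (algebraMap A A[T;T⁻¹] a) = g := by
            simpa using hgeq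
          have h5 : (AddMonoidAlgebra.basis ℤ A).repr
              ((P : Module.End k A[T;T⁻¹]) (algebraMap A A[T;T⁻¹] a)) l = g.coeff l :=
            congrArg (fun f : A[T;T⁻¹] => f.coeff l) h4
          rw [h5]
          exact (mem_chartInf g).mp hg l hl
        have h3 := h2.act_eq (σ := F) P (fun l => AddMonoidAlgebra.basis ℤ A l) (fun l => R l)
          (fun a => by rw [hR a, ← Finset.sum_coe_sort]) e
        have h3' : (pbStrat (AddMonoidAlgebra.basis ℤ A) S).act P (ι' e)
            = ∑ i : F, (AddMonoidAlgebra.basis ℤ A) i • ι' (S.act (R i) e) := h3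
        rw [h3']
        apply Submodule.sum_mem
        rintro ⟨l, _⟩ _
        rcases lt_or_ge 0 l with hl | hl
        · have : S.act (R l) e = 0 := by
            rw [hR0 l hl, map_zero]; rfl
          simp only [this, map_zero, smul_zero]
          exact Submodule.zero_mem _
        · have hb : (AddMonoidAlgebra.basis ℤ A) l ∈ chartInf A := by
            have h6 : (AddMonoidAlgebra.basis ℤ A) l = (T l : A[T;T⁻¹]) := by
              rw [AddMonoidAlgebra.basis_apply]; rfl
            rw [h6, mem_chartInf]
            intro n hn
            rw [T_apply, if_neg (by omega)]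
          exact Submodule.smul_mem _ (⟨_, hb⟩ : chartInf A) (hrange _)
      | zero => rw [map_zero]; exact Submodule.zero_mem _
      | add x y _ _ hx hy => rw [map_add]; exact Submodule.add_mem _ (hx P hP) (hy P hP)
      | smul c x _ hx =>
        rw [Subalgebra.smul_def, Strat.act_smul]
        apply hx
        intro i f hf
        obtain ⟨g, hg, hgeq⟩ := hP i (c * f) ((chartInf A).mul_mem c.2 hf)
        refine ⟨g, hg, ?_⟩
        rw [← hgeq, mul_left_comm]
        rfl

end Inf

end HI
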