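import Pool.Agent.Lib.HI.Ops

namespace HI

open Polynomial Finset

section Taylor

variable {k : Type*} [CommRing k] {A : Type*} [CommRing A] [Algebra k A]
  {M : Type*} [AddCommGroup M] [Module A[X] M] [Module A M] [IsScalarTower A A[X] M]

theorem Strat.act_mul_apply {B : Type*} [CommRing B] [Algebra k B] {M : Type*} [AddCommGroup M]
    [Module B M] (S : Strat k B M) (P Q : D k B) (m : M) :
    S.act (P * Q) m = S.act P (S.act Q m) := by
  rw [map_mul]; rfl

theorem Strat.act_smul {B : Type*} [CommRing B] [Algebra k B] {M : Type*} [AddCommGroup M]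
    [Module B M] (S : Strat k B M) (P : D k B) (b : B) (m : M) :
    S.act P (b • m) = S.act (P * mulOp k b) m := by
  rw [S.act_mul_apply, S.act_mul]

theorem Strat.smul_act {B : Type*} [CommRing B] [Algebra k B] {M : Type*} [AddCommGroup M]
    [Module B M] (S : Strat k B M) (P : D k B) (b : B) (m : M) :
    b • S.act P m = S.act (mulOp k b * P) m := by
  rw [S.act_mul_apply, S.act_mul]

theorem Strat.act_sum {B : Type*} [CommRing B] [Algebra k B] {M : Type*} [AddCommGroup M]
    [Module B M] (S : Strat k B M) {σ : Type*} (s : Finset σ) (P : σ → D k B) (m : M) :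
    S.act (∑ i ∈ s, P i) m = ∑ i ∈ s, S.act (P i) m := by
  rw [map_sum]
  exact AddMonoidHom.finsetSum_apply _ _ _

theorem Strat.act_nsmul {B : Type*} [CommRing B] [Algebra k B] {M : Type*} [AddCommGroup M]
    [Module B M] (S : Strat k B M) (n : ℕ) (P : D k B) (m : M) :
    S.act (n • P) m = n • S.act P m := by
  rw [map_nsmul]; rfl

theorem Strat.act_one {B : Type*} [CommRing B] [Algebra k B] {M : Type*} [AddCommGroup M]
    [Module B M] (S : Strat k B M) (m : M) :
    S.act 1 m = m := by
  rw [map_one]; rfl

variable (S : Strat k A[X] M)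

/-- The sections of `M` that are horizontal in the direction of `x`. -/
def hor : Submodule A M where
  carrier := {m | ∀ j, 1 ≤ j → S.act (dp k j) m = 0}
  add_mem' := by
    intro a b ha hb j hj
    rw [map_add, ha j hj, hb j hj, add_zero]
  zero_mem' := by
    intro j _
    rw [map_zero]
  smul_mem' := by
    intro c m hm j hj
    have h1 : c • m = (Polynomial.C c : A[X]) • m := by
      rw [← Polynomial.algebraMap_eq, algebraMap_smul]
    rw [h1, S.act_smul, ← extD_mulOp, dp_mul_extD, extD_mulOp, S.act_mul_apply, hm j hj, map_zero]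

theorem act_dp_X_pow_smul (i j : ℕ) {e : M} (he : e ∈ hor S) :
    S.act (dp k i) ((X : A[X]) ^ j • e) = (j.choose i) • ((X : A[X]) ^ (j - i) • e) := by
  rw [S.act_smul, dp_mul_X_pow, S.act_sum]
  rw [Finset.sum_eq_single (i, 0)]
  · rw [S.act_nsmul, S.act_mul_apply, S.act_mul, dp_zero, S.act_one]
  · rintro ⟨a, b⟩ hab hne
    have hab' := mem_antidiagonal.mp hab
    have hb : 1 ≤ b := by
      rcases Nat.eq_zero_or_pos b with rfl | hb
      · exact absurd (by simp at hab'; rw [hab']) hne
      · exact hb
    simp only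
    rw [S.act_nsmul, S.act_mul_apply, he b hb, map_zero, smul_zero]
  · intro h
    exact absurd (by simp) h

theorem mem_span_hor (N : ℕ) : ∀ m : M, (∀ j, N ≤ j → S.act (dp k j) m = 0) →
    m ∈ Submodule.span A[X] ((hor S : Submodule A M) : Set M) := by
  induction N with
  | zero =>
    intro m hm
    have := hm 0 le_rfl
    rw [dp_zero, S.act_one] at this
    rw [this]
    exact Submodule.zero_mem _
  | succ N ih =>
    intro m hm
    set e := S.act (dp k N) m with hedef
    have he : e ∈ hor S := by
      intro i hi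
      rw [hedef, ← S.act_mul_apply, dp_mul_dp, S.act_nsmul, hm (i + N) (by omega), smul_zero]
    have h1 : m - (X : A[X]) ^ N • e ∈ Submodule.span A[X] ((hor S : Submodule A M) : Set M) := by
      apply ih
      intro j hj
      rw [map_sub, act_dp_X_pow_smul S j N he]
      rcases hj.eq_or_lt with rfl | hlt
      · simp [hedef]
      · rw [hm j hlt, Nat.choose_eq_zero_of_lt hlt, zero_smul, sub_zero]
    have h2 : (X : A[X]) ^ N • e ∈ Submodule.span A[X] ((hor S : Submodule A M) : Set M) :=
      Submodule.smul_mem _ _ (Submodule.subset_span he)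
    simpa using Submodule.add_mem _ h1 h2

/-- the sum `∑ x^j e_j` -/
theorem hor_independent (f : ℕ →₀ hor S) (hf : (f.sum fun j e => (X : A[X]) ^ j • (e : M)) = 0) :
    f = 0 := by
  by_contra hne
  have hs : f.support.Nonempty := Finsupp.support_nonempty_iff.mpr hne
  set d := f.support.max' hs with hd
  have hdm : d ∈ f.support := Finset.max'_mem _ _
  have h1 := congrArg (S.act (dp k d)) hf
  rw [map_zero, Finsupp.sum, map_sum] at h1
  rw [Finset.sum_eq_single d] at h1
  · rw [act_dp_X_pow_smul S d d (f d).2] at h1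
    simp at h1
    exact (Finsupp.mem_support_iff.mp hdm) h1
  · intro j hj hjd
    have hle : j ≤ d := Finset.le_max' _ _ hj
    rw [act_dp_X_pow_smul S d j (f j).2, Nat.choose_eq_zero_of_lt (lt_of_le_of_ne hle hjd),
      zero_smul]
  · intro h; exact absurd hdm h

end Taylor

end HI
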